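import Pool.Agent.H8.PFT.Bdry

/-!
The exactness part for a group acting on a tree, and the theorem on closed commutator subgroups of
edge stabilisers.
-/

set_option autoImplicit false

namespace Pool.Agent.H8.PFT

open Pool.Agent.H3.HG Finsupp SimpleGraph
open scoped commutatorElement

variable {H : Type} [Group H] {V : Type*} [MulAction H V] {T : SimpleGraph V}

lemma wsum_congr {D : Type*} [AddCommGroup D] (β β' : V → V → D) {x y : V} (p : T.Walk x y)
    (h : ∀ d ∈ p.darts, β d.fst d.snd = β' d.fst d.snd) : wsum β p = wsum β' p := by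
  induction p with
  | nil => rfl
  | cons e p ih =>
    rw [Walk.darts_cons] at h
    simp only [wsum]
    rw [ih fun d hd => h d (List.mem_cons_of_mem _ hd)]
    have := h _ List.mem_cons_self
    simp only at this
    rw [this]

lemma wsum_sub {D : Type*} [AddCommGroup D] (β β' : V → V → D) {x y : V} (p : T.Walk x y) :
    wsum (fun u v => β u v - β' u v) p = wsum β p - wsum β' p := by
  induction p with
  | nil => simp [wsum]
  | cons e p ih =>
    simp only [wsum]
    rw [ih]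
    abel

lemma wsum_map {D D' : Type*} [AddCommGroup D] [AddCommGroup D'] (π : D →+ D')
    (β : V → V → D) {x y : V} (p : T.Walk x y) :
    π (wsum β p) = wsum (fun u v => π (β u v)) p := by
  induction p with
  | nil => simp [wsum]
  | cons e p ih =>
    simp only [wsum]
    rw [map_add, ih]

/-- The part of a cocycle on one orbit of edges is determined on cycles by the universal one. -/
theorem single_orbit {D : Type*} [AddCommGroup D] (hT : T.IsTree) {γ : H → V → V → D}
    (hadj : ∀ (g : H) u v, T.Adj u v → T.Adj (g • u) (g • v))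
    (hγ : IsEC T γ) {o : V} (P : ∀ x, T.Walk o x) (u₀ v₀ : V) (huv : T.Adj u₀ v₀)
    (Φ : M H →+ D) (hΦ : ∀ g h, Φ (br g h) = wsum (asym u₀ v₀ γ g) (P (h • o)))
    (ΦU : M H →+ Additive (Abelianization (St H u₀ v₀)))
    (hΦU : ∀ g h, ΦU (br g h) = wsum (uni u₀ v₀ g) (P (h • o)))
    (z : M H) (hz : z ∈ Z2 H) (h0 : ΦU z = 0) : Φ z = 0 := by
  classical
  let f : St H u₀ v₀ →* Multiplicative D := MonoidHom.mk'
    (fun x => Multiplicative.ofAdd (γ (x : H) u₀ v₀)) (by
      intro x y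
      have h1 : (y : H) • u₀ = u₀ := y.2.1
      have h2 : (y : H) • v₀ = v₀ := y.2.2
      have h3 := hγ.coc (x : H) (y : H) u₀ v₀ huv
      rw [h1, h2] at h3
      show Multiplicative.ofAdd (γ ((x : H) * (y : H)) u₀ v₀) = _
      rw [h3]
      rfl)
  let δ : Additive (Abelianization (St H u₀ v₀)) →+ D :=
    { toFun := fun y => Multiplicative.toAdd (Abelianization.lift f (Additive.toMul y))
      map_zero' := by
        show Multiplicative.toAdd (Abelianization.lift f 1) = 0
        rw [map_one]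
        rfl
      map_add' := by
        intro x y
        show Multiplicative.toAdd (Abelianization.lift f (Additive.toMul x * Additive.toMul y)) = _
        rw [map_mul]
        rfl }
  have hδ : ∀ x ∈ St H u₀ v₀, δ (cls u₀ v₀ x) = γ x u₀ v₀ := by
    intro x hx
    rw [cls_of hx]
    show Multiplicative.toAdd (Abelianization.lift f (Abelianization.of ⟨x, hx⟩)) = _
    rw [Abelianization.lift_apply_of]
    rfl
  let b : V → V → D := fun u v => (if Om H u₀ v₀ u v then γ (q H u₀ v₀ u v) u₀ v₀ else 0) -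
    (if Om H u₀ v₀ v u then γ (q H u₀ v₀ v u) u₀ v₀ else 0)
  have hb : ∀ u v, b v u = -b u v := by
    intro u v
    simp only [b]
    abel
  have hOm : ∀ g u v, Om H u₀ v₀ u v → γ g u v = γ (q H u₀ v₀ (g • u) (g • v)) u₀ v₀ -
      γ (q H u₀ v₀ u v) u₀ v₀ + δ (cls u₀ v₀ (kap u₀ v₀ g u v)) := by
    intro g u v hO
    rw [hδ _ (kap_mem hO g)]
    have h1 := hγ.coc g (q H u₀ v₀ u v) u₀ v₀ huv
    rw [(q_spec hO).1, (q_spec hO).2] at h1
    have h2 := hγ.coc (q H u₀ v₀ (g • u) (g • v)) (kap u₀ v₀ g u v) u₀ v₀ huv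
    have h3 : kap u₀ v₀ g u v • u₀ = u₀ := (kap_mem hO g).1
    have h4 : kap u₀ v₀ g u v • v₀ = v₀ := (kap_mem hO g).2
    rw [h3, h4] at h2
    have h5 : q H u₀ v₀ (g • u) (g • v) * kap u₀ v₀ g u v = g * q H u₀ v₀ u v := by
      rw [kap]; group
    rw [h5, h1] at h2
    rw [eq_sub_of_add_eq h2]
    abel
  have hasym : ∀ g u v, asym u₀ v₀ γ g u v = b (g • u) (g • v) - b u v +
      δ (uni u₀ v₀ g u v) := by
    intro g u v
    have key : ∀ u v, (if Om H u₀ v₀ u v then γ g u v else 0) =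
        (if Om H u₀ v₀ u v then γ (q H u₀ v₀ (g • u) (g • v)) u₀ v₀ else 0) -
          (if Om H u₀ v₀ u v then γ (q H u₀ v₀ u v) u₀ v₀ else 0) +
          δ (if Om H u₀ v₀ u v then cls u₀ v₀ (kap u₀ v₀ g u v) else 0) := by
      intro u v
      by_cases hO : Om H u₀ v₀ u v
      · rw [if_pos hO, if_pos hO, if_pos hO, if_pos hO]
        exact hOm g u v hO
      · rw [if_neg hO, if_neg hO, if_neg hO, if_neg hO, map_zero]
        abel
    simp only [asym, uni, b, Om_smul, map_sub]
    rw [key u v, key v u]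
    abel
  obtain ⟨B, hB⟩ := potential hT b (fun u v _ => hb u v)
  have hsum : ∀ (g : H) {x y : V} (p : T.Walk x y), wsum (asym u₀ v₀ γ g) p =
      ((B (g • y) - B y) - (B (g • x) - B x)) + δ (wsum (uni u₀ v₀ g) p) := by
    intro g x y p
    rw [wsum_map]
    have h1 : wsum (fun u v => b (g • u) (g • v) - b u v) p =
        (B (g • y) - B y) - (B (g • x) - B x) := by
      apply wsum_potential _ (fun x => B (g • x) - B x)
      intro u v e
      rw [← hB _ _ e, ← hB _ _ (hadj g _ _ e)]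
      abel
    have h2 : wsum (fun u v => δ (uni u₀ v₀ g u v)) p =
        wsum (fun u v => asym u₀ v₀ γ g u v - (b (g • u) (g • v) - b u v)) p := by
      apply wsum_congr
      intro d _
      rw [hasym]
      abel
    rw [h2, wsum_sub, h1]
    abel
  have h1 := cycles_kill (Φ - δ.comp ΦU) (fun g => -(B (g • o) - B o)) (by
    intro g k
    rw [AddMonoidHom.sub_apply, AddMonoidHom.comp_apply, hΦ, hΦU, hsum, mul_smul]
    abel) z hz
  rw [AddMonoidHom.sub_apply, AddMonoidHom.comp_apply, h0, map_zero, sub_zero] at h1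
  exact h1

/-- The pair `(u, v)` is a translate of a pair of the list, up to the order. -/
def WF (H : Type) [Group H] {V : Type*} [MulAction H V] (F : List (V × V)) (u v : V) : Prop :=
  ∃ f ∈ F, Om H f.1 f.2 u v ∨ Om H f.1 f.2 v u

/-- Cocycles supported on finitely many orbits of edges. -/
theorem finite_support {D : Type*} [AddCommGroup D] (hT : T.IsTree)
    (hadj : ∀ (g : H) u v, T.Adj u v → T.Adj (g • u) (g • v))
    (hinv : ∀ (g : H) u v, T.Adj u v → ¬ (g • u = v ∧ g • v = u))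
    {o : V} (P : ∀ x, T.Walk o x) (z : M H) (hz : z ∈ Z2 H)
    (hU : ∀ u₀ v₀, T.Adj u₀ v₀ → ∃ ΦU : M H →+ Additive (Abelianization (St H u₀ v₀)),
      (∀ g h, ΦU (br g h) = wsum (uni u₀ v₀ g) (P (h • o))) ∧ ΦU z = 0) :
    ∀ F : List (V × V), (∀ f ∈ F, T.Adj f.1 f.2) → ∀ γ : H → V → V → D, IsEC T γ →
      (∀ g u v, T.Adj u v → ¬ WF H F u v → γ g u v = 0) → ∀ Φ : M H →+ D,
      (∀ g h, Φ (br g h) = wsum (γ g) (P (h • o))) → Φ z = 0 := by
  classical
  intro F
  induction F with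
  | nil =>
    intro _ γ hγ hs Φ hΦ
    have h1 : ∀ (g : H) {x y : V} (p : T.Walk x y), wsum (γ g) p = 0 := by
      intro g x y p
      induction p with
      | nil => rfl
      | cons e p ih =>
        simp only [wsum]
        rw [ih, hs g _ _ e (by rintro ⟨f, hf, _⟩; exact absurd hf List.not_mem_nil), add_zero]
    have h2 : Φ = 0 := by
      apply M_hom_ext
      intro g k
      rw [hΦ, h1]
      rfl
    rw [h2]
    rfl
  | cons f F ih =>
    intro hF γ hγ hs Φ hΦ
    have hf : T.Adj f.1 f.2 := hF f List.mem_cons_self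
    have hOadj : ∀ u v, Om H f.1 f.2 u v → T.Adj u v := by
      rintro u v ⟨k, rfl, rfl⟩
      exact hadj k _ _ hf
    have hEC1 : IsEC T (asym f.1 f.2 γ) := asym_isEC T f.1 f.2 γ
      (fun g h u v hO => hγ.coc g h u v (hOadj u v hO))
    have hEC2 : IsEC T (fun g u v => γ g u v - asym f.1 f.2 γ g u v) := by
      constructor
      · intro g u v e
        show γ g v u - asym f.1 f.2 γ g v u = -(γ g u v - asym f.1 f.2 γ g u v)
        rw [hγ.anti g u v e, hEC1.anti g u v e]
        abel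
      · intro g h u v e
        show γ (g * h) u v - asym f.1 f.2 γ (g * h) u v = _
        rw [hγ.coc g h u v e, hEC1.coc g h u v e]
        abel
    obtain ⟨Φ1, hΦ1, -⟩ := exists_Phi hT hadj hEC1 P
    obtain ⟨ΦU, hΦU, hU0⟩ := hU f.1 f.2 hf
    have hz1 : Φ1 z = 0 :=
      single_orbit hT hadj hγ P f.1 f.2 hf Φ1 hΦ1 ΦU hΦU z hz hU0
    have hz2 := ih (fun f' hf' => hF f' (List.mem_cons_of_mem _ hf')) _ hEC2 (by
      intro g u v e hW
      show γ g u v - asym f.1 f.2 γ g u v = 0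
      by_cases h1 : Om H f.1 f.2 u v
      · have h2 : ¬ Om H f.1 f.2 v u := by
          rintro ⟨k', h3, h4⟩
          obtain ⟨k, h5, h6⟩ := h1
          apply hinv (k' * k⁻¹) u v e
          constructor
          · rw [mul_smul, ← h5, inv_smul_smul, h3]
          · rw [mul_smul, ← h6, inv_smul_smul, h4]
        simp only [asym]
        rw [if_pos h1, if_neg h2]
        abel
      · by_cases h2 : Om H f.1 f.2 v u
        · simp only [asym]
          rw [if_neg h1, if_pos h2, hγ.anti g u v e]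
          abel
        · simp only [asym]
          rw [if_neg h1, if_neg h2, hs g u v e (by
            rintro ⟨f', hf', h3⟩
            rcases List.mem_cons.1 hf' with rfl | hf'
            · rcases h3 with h3 | h3
              · exact h1 h3
              · exact h2 h3
            · exact hW ⟨f', hf', h3⟩)]
          abel) (Φ - Φ1) (by
      intro g h
      rw [AddMonoidHom.sub_apply, hΦ, hΦ1, ← wsum_sub])
    rw [AddMonoidHom.sub_apply, hz1, sub_zero] at hz2
    exact hz2

/-- All cocycles. -/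
theorem all_support {D : Type*} [AddCommGroup D] (hT : T.IsTree)
    (hadj : ∀ (g : H) u v, T.Adj u v → T.Adj (g • u) (g • v))
    (hinv : ∀ (g : H) u v, T.Adj u v → ¬ (g • u = v ∧ g • v = u))
    {o : V} (P : ∀ x, T.Walk o x) (z : M H) (hz : z ∈ Z2 H)
    (hU : ∀ u₀ v₀, T.Adj u₀ v₀ → ∃ ΦU : M H →+ Additive (Abelianization (St H u₀ v₀)),
      (∀ g h, ΦU (br g h) = wsum (uni u₀ v₀ g) (P (h • o))) ∧ ΦU z = 0)
    (γ : H → V → V → D) (hγ : IsEC T γ) (Φ : M H →+ D)
    (hΦ : ∀ g h, Φ (br g h) = wsum (γ g) (P (h • o))) : Φ z = 0 := by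
  classical
  obtain ⟨c, rfl⟩ := QuotientAddGroup.mk_surjective z
  obtain ⟨Φ', hΦ', hΦc⟩ := exists_Phi hT hadj hγ P
  have hΦeq : Φ = Φ' := M_hom_ext fun g k => by rw [hΦ, hΦ']
  let F : List (V × V) := c.support.toList.flatMap fun p =>
    (P (p.2 • o)).darts.map fun d => (d.fst, d.snd)
  have hF : ∀ f ∈ F, T.Adj f.1 f.2 := by
    intro f hf
    obtain ⟨p, _, hp⟩ := List.mem_flatMap.1 hf
    obtain ⟨d, _, rfl⟩ := List.mem_map.1 hp
    exact d.adj
  have hWs : ∀ (h : H) u v, WF H F (h • u) (h • v) ↔ WF H F u v := by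
    intro h u v
    simp only [WF, Om_smul]
  have hWc : ∀ u v, WF H F v u ↔ WF H F u v := by
    intro u v
    simp only [WF]
    constructor <;> rintro ⟨f, hf, h | h⟩
    · exact ⟨f, hf, Or.inr h⟩
    · exact ⟨f, hf, Or.inl h⟩
    · exact ⟨f, hf, Or.inr h⟩
    · exact ⟨f, hf, Or.inl h⟩
  let γF : H → V → V → D := fun g u v => if WF H F u v then γ g u v else 0
  have hECF : IsEC T γF := by
    constructor
    · intro g u v e
      simp only [γF, hWc u v]
      split_ifs
      · exact hγ.anti g u v e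
      · rw [neg_zero]
    · intro g h u v e
      simp only [γF, hWs]
      split_ifs
      · exact hγ.coc g h u v e
      · rw [add_zero]
  obtain ⟨ΦF, hΦF, hΦFc⟩ := exists_Phi hT hadj hECF P
  have h1 := finite_support hT hadj hinv P _ hz hU F hF γF hECF (by
    intro g u v _ hW
    simp only [γF]
    rw [if_neg hW]) ΦF hΦF
  rw [hΦeq, hΦc, ← h1, hΦFc]
  apply Finsupp.sum_congr
  intro p hp
  congr 1
  apply wsum_congr
  intro d hd
  have h2 : WF H F d.fst d.snd := by
    refine ⟨(d.fst, d.snd), ?_, Or.inl ⟨1, one_smul _ _, one_smul _ _⟩⟩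
    exact List.mem_flatMap.2 ⟨p, Finset.mem_toList.2 hp, List.mem_map.2 ⟨d, hd, rfl⟩⟩
  simp only [γF]
  rw [if_pos h2]

/-- Exactness: a cycle on which all universal cocycles vanish comes from the vertex stabilisers. -/
theorem exactness (hT : T.IsTree)
    (hadj : ∀ (g : H) u v, T.Adj u v → T.Adj (g • u) (g • v))
    (hinv : ∀ (g : H) u v, T.Adj u v → ¬ (g • u = v ∧ g • v = u))
    {o : V} (P : ∀ x, T.Walk o x) (z : M H) (hz : z ∈ Z2 H)
    (hU : ∀ u₀ v₀, T.Adj u₀ v₀ → ∃ ΦU : M H →+ Additive (Abelianization (St H u₀ v₀)),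
      (∀ g h, ΦU (br g h) = wsum (uni u₀ v₀ g) (P (h • o))) ∧ ΦU z = 0) :
    z ∈ ⨆ v : V, (Z2 (MulAction.stabilizer H v)).map
      (Mmap (MulAction.stabilizer H v).subtype) := by
  classical
  by_contra hcon
  set S : AddSubgroup (M H) := ⨆ v : V, (Z2 (MulAction.stabilizer H v)).map
      (Mmap (MulAction.stabilizer H v).subtype) with hS
  have hne : (QuotientAddGroup.mk z : M H ⧸ S) ≠ 0 := by
    rw [Ne, QuotientAddGroup.eq_zero_iff]
    exact hcon
  have hex : ∃ χ : M H →+ AddCircle (1 : ℚ), (∀ m ∈ S, χ m = 0) ∧ χ z ≠ 0 := by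
    obtain ⟨c, hc⟩ := CharacterModule.exists_character_apply_ne_zero_of_ne_zero hne
    refine ⟨(c : (M H ⧸ S) →+ AddCircle (1 : ℚ)).comp (QuotientAddGroup.mk' S), ?_, hc⟩
    intro m hm
    show c (QuotientAddGroup.mk m) = 0
    rw [(QuotientAddGroup.eq_zero_iff m).2 hm, map_zero]
  obtain ⟨χ, hχS, hχz⟩ := hex
  obtain ⟨a, ha⟩ := exists_a (V := V) χ (by
    intro v m hm
    apply hχS
    exact AddSubgroup.mem_iSup_of_mem v ⟨m, hm, rfl⟩)
  have hEC : IsEC T (fun g u v => a g v - a g u) := by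
    constructor
    · intro g u v _
      abel
    · intro g h u v _
      show a (g * h) v - a (g * h) u = _
      rw [ha, ha]
      abel
  obtain ⟨Φ, hΦ, -⟩ := exists_Phi hT hadj hEC P
  have hΦz := all_support hT hadj hinv P z hz hU _ hEC Φ hΦ
  have h1 := cycles_kill (χ - Φ) (fun g => a g o) (by
    intro g k
    rw [AddMonoidHom.sub_apply, hΦ, wsum_potential _ (a g) (fun u v _ => rfl)]
    have h2 : χ (br g k) = a g (k • o) + a k o - a (g * k) o := by
      rw [ha]; abel
    rw [h2]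
    abel) z hz
  rw [AddMonoidHom.sub_apply, hΦz, sub_zero] at h1
  exact hχz h1

/-- The theorem on closed commutator subgroups. -/
theorem main_closed (hT : T.IsTree)
    (hadj : ∀ (g : H) u v, T.Adj u v → T.Adj (g • u) (g • v))
    (hinv : ∀ (g : H) u v, T.Adj u v → ¬ (g • u = v ∧ g • v = u))
    (z : M H) (hz : z ∈ Z2 H)
    (hN : ∀ u₀ v₀, T.Adj u₀ v₀ → ∀ x ∈ St H u₀ v₀, x ∉ ⁅St H u₀ v₀, St H u₀ v₀⁆ →
      ∃ N : Subgroup H, N.Normal ∧ (∃ w ∈ Z2 N, Mmap N.subtype w = z) ∧
        ∀ n ∈ N, n ∈ St H u₀ v₀ → x * n⁻¹ ∉ ⁅St H u₀ v₀, St H u₀ v₀⁆) :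
    z ∈ ⨆ v : V, (Z2 (MulAction.stabilizer H v)).map
      (Mmap (MulAction.stabilizer H v).subtype) := by
  obtain ⟨o⟩ := hT.1.nonempty
  have hw : ∀ x, Nonempty (T.Walk o x) := fun x => hT.1.preconnected o x
  let P : ∀ x, T.Walk o x := fun x => (hw x).some
  refine exactness hT hadj hinv P z hz fun u₀ v₀ huv => ?_
  obtain ⟨ΦU, hΦU, -⟩ := exists_Phi hT hadj (uni_isEC (H := H) T u₀ v₀) P
  refine ⟨ΦU, hΦU, ?_⟩
  obtain ⟨y, hy⟩ : ∃ y : St H u₀ v₀, ΦU z = Additive.ofMul (Abelianization.of y) := by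
    obtain ⟨y, hy⟩ := QuotientGroup.mk_surjective (s := commutator (St H u₀ v₀))
      (Additive.toMul (ΦU z))
    exact ⟨y, congrArg Additive.ofMul hy.symm⟩
  have hy' : ΦU z = cls u₀ v₀ (y : H) := by rw [hy, cls_of y.2]
  rw [hy', cls_eq_zero y.2]
  by_contra hcon
  obtain ⟨N, hNn, ⟨w, hw, hwz⟩, hN'⟩ := hN u₀ v₀ huv y y.2 hcon
  obtain ⟨n, hn1, hn2, hn3⟩ := uni_deep hT hadj hinv P u₀ v₀ ΦU hΦU N w hw
  rw [hwz, hy'] at hn3
  apply hN' n hn1 hn2
  rw [← cls_eq_zero (Subgroup.mul_mem _ y.2 (Subgroup.inv_mem _ hn2)),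
    cls_mul y.2 (Subgroup.inv_mem _ hn2), hn3, ← cls_mul hn2 (Subgroup.inv_mem _ hn2),
    mul_inv_cancel]
  exact (cls_eq_zero (Subgroup.one_mem _)).2 (Subgroup.one_mem _)

end Pool.Agent.H8.PFT
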