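import Mathlib

/-!
Two-generated and abelian subgroups of residually torsion-free nilpotent groups: some normal
subgroup with torsion-free nilpotent quotient meets them in commutators.
-/

set_option autoImplicit false

namespace Pool.Agent.H8.PFT

open scoped commutatorElement

section basic

variable {C : Type*} [Group C]

lemma comm_zpow (a b : C) (hc : ∀ x, Commute ⁅a, b⁆ x) (k : ℤ) : ⁅a ^ k, b⁆ = ⁅a, b⁆ ^ k := by
  have h1 : b * a * b⁻¹ = ⁅a, b⁆⁻¹ * a := by
    rw [commutatorElement_def]; group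
  have h2 : b * a ^ k * b⁻¹ = (⁅a, b⁆⁻¹) ^ k * a ^ k := by
    rw [← conj_zpow, h1, (Commute.inv_left (hc a)).mul_zpow]
  have h3 : ⁅a ^ k, b⁆ = a ^ k * (b * a ^ k * b⁻¹)⁻¹ := by
    rw [commutatorElement_def]; group
  rw [h3, h2]
  generalize ⁅a, b⁆ = c
  group

/-- Elements of a term of the lower central series are central modulo the next term. -/
lemma central_mod (i : ℕ) {w : C} (hw : w ∈ (⊤ : Subgroup C).lowerCentralSeries i) (x : C) :
    Commute (QuotientGroup.mk' ((⊤ : Subgroup C).lowerCentralSeries (i + 1)) w)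
      (QuotientGroup.mk' ((⊤ : Subgroup C).lowerCentralSeries (i + 1)) x) := by
  rw [← commutatorElement_eq_one_iff_commute, ← map_commutatorElement,
    ← MonoidHom.mem_ker, QuotientGroup.ker_mk', Subgroup.lowerCentralSeries_succ]
  exact Subgroup.commutator_mem_commutator hw (Subgroup.mem_top x)

/-- The elements of a term whose `k`-th power is in the next term form a subgroup. -/
def powSub (C : Type*) [Group C] (k : ℤ) (i : ℕ) : Subgroup C where
  carrier := {w | w ∈ (⊤ : Subgroup C).lowerCentralSeries i ∧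
    w ^ k ∈ (⊤ : Subgroup C).lowerCentralSeries (i + 1)}
  one_mem' := ⟨Subgroup.one_mem _, by rw [one_zpow]; exact Subgroup.one_mem _⟩
  mul_mem' := by
    rintro a b ⟨a1, a2⟩ ⟨b1, b2⟩
    refine ⟨Subgroup.mul_mem _ a1 b1, ?_⟩
    have e : ∀ w : C, w ∈ (⊤ : Subgroup C).lowerCentralSeries (i + 1) ↔
        QuotientGroup.mk' ((⊤ : Subgroup C).lowerCentralSeries (i + 1)) w = 1 := by
      intro w
      rw [← MonoidHom.mem_ker, QuotientGroup.ker_mk']
    rw [e] at a2 b2 ⊢
    rw [map_zpow, map_mul, (central_mod i a1 b).mul_zpow, ← map_zpow, ← map_zpow, a2, b2, one_mul]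
  inv_mem' := by
    rintro a ⟨a1, a2⟩
    refine ⟨Subgroup.inv_mem _ a1, ?_⟩
    rw [inv_zpow]
    exact Subgroup.inv_mem _ a2

lemma mem_lcs_iff (i : ℕ) (w : C) : w ∈ (⊤ : Subgroup C).lowerCentralSeries i ↔
    QuotientGroup.mk' ((⊤ : Subgroup C).lowerCentralSeries i) w = 1 := by
  rw [← MonoidHom.mem_ker, QuotientGroup.ker_mk']

lemma pow_comm_mem (k : ℤ) (i : ℕ) (u v : C)
    (hu : ⁅u, v⁆ ∈ (⊤ : Subgroup C).lowerCentralSeries i)
    (h : ⁅u ^ k, v⁆ ∈ (⊤ : Subgroup C).lowerCentralSeries (i + 1)) : ⁅u, v⁆ ∈ powSub C k i := by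
  refine ⟨hu, ?_⟩
  rw [mem_lcs_iff] at h ⊢
  rw [map_commutatorElement, map_zpow, comm_zpow _ _ (by
    intro x
    obtain ⟨x, rfl⟩ := QuotientGroup.mk'_surjective _ x
    rw [← map_commutatorElement]
    exact central_mod i hu x)] at h
  rw [map_zpow, map_commutatorElement]
  exact h

theorem lcs_step (k : ℤ) (i : ℕ) (h : ∀ u ∈ (⊤ : Subgroup C).lowerCentralSeries i,
    u ^ k ∈ (⊤ : Subgroup C).lowerCentralSeries (i + 1)) :
    ∀ w ∈ (⊤ : Subgroup C).lowerCentralSeries (i + 1),
      w ^ k ∈ (⊤ : Subgroup C).lowerCentralSeries (i + 2) := by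
  intro w hw
  have hle : (⊤ : Subgroup C).lowerCentralSeries (i + 1) ≤ powSub C k (i + 1) := by
    conv_lhs => rw [Subgroup.lowerCentralSeries_succ]
    rw [Subgroup.commutator_le]
    intro u hu v _
    apply pow_comm_mem
    · rw [Subgroup.lowerCentralSeries_succ]
      exact Subgroup.commutator_mem_commutator hu (Subgroup.mem_top v)
    · rw [Subgroup.lowerCentralSeries_succ _ (i + 1)]
      exact Subgroup.commutator_mem_commutator (h u hu) (Subgroup.mem_top v)
  exact (hle hw).2

/-- A normal subgroup which contains the commutator of two generators contains the commutator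
subgroup. -/
theorem commutator_le_of_pair (a b : C) (hgen : Subgroup.closure {a, b} = ⊤) (K : Subgroup C)
    [K.Normal] (h : ⁅a, b⁆ ∈ K) : commutator C ≤ K := by
  have e : ∀ x y : C, ⁅x, y⁆ ∈ K ↔
      Commute (QuotientGroup.mk' K x) (QuotientGroup.mk' K y) := by
    intro x y
    rw [← commutatorElement_eq_one_iff_commute, ← map_commutatorElement,
      ← MonoidHom.mem_ker, QuotientGroup.ker_mk']
  have hab := (e a b).1 h
  have key : ∀ x y, (∀ z ∈ ({a, b} : Set C), Commute (QuotientGroup.mk' K z)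
      (QuotientGroup.mk' K y)) → Commute (QuotientGroup.mk' K x) (QuotientGroup.mk' K y) := by
    intro x y hy
    have hx : x ∈ Subgroup.closure {a, b} := by rw [hgen]; trivial
    induction hx using Subgroup.closure_induction with
    | mem z hz => exact hy z hz
    | one => rw [map_one]; exact Commute.one_left _
    | mul u v _ _ hu hv => rw [map_mul]; exact hu.mul_left hv
    | inv u _ hu => rw [map_inv]; exact hu.inv_left
  rw [commutator_def, Subgroup.commutator_le]
  intro x _ y _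
  rw [e]
  apply key
  intro z hz
  apply Commute.symm
  apply key
  intro t ht
  rcases hz with rfl | hz <;> rcases ht with rfl | ht
  · exact Commute.refl _
  · rw [Set.mem_singleton_iff.1 ht]; exact hab.symm
  · rw [Set.mem_singleton_iff.1 hz]; exact hab
  · rw [Set.mem_singleton_iff.1 hz, Set.mem_singleton_iff.1 ht]

theorem lcs_base (a b : C) (hgen : Subgroup.closure {a, b} = ⊤) (k l : ℤ)
    (h : a ^ k * b ^ l ∈ commutator C) : ∀ w ∈ (⊤ : Subgroup C).lowerCentralSeries 1,
      w ^ k ∈ (⊤ : Subgroup C).lowerCentralSeries 2 := by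
  intro w hw
  have hnorm : (powSub C k 1).Normal := by
    refine ⟨fun w hw x => ⟨?_, ?_⟩⟩
    · exact (inferInstance : ((⊤ : Subgroup C).lowerCentralSeries 1).Normal).conj_mem w hw.1 x
    · rw [conj_zpow]
      exact (inferInstance : ((⊤ : Subgroup C).lowerCentralSeries 2).Normal).conj_mem _ hw.2 x
  have hab : ⁅a, b⁆ ∈ powSub C k 1 := by
    apply pow_comm_mem
    · rw [Subgroup.lowerCentralSeries_succ]
      exact Subgroup.commutator_mem_commutator (Subgroup.mem_top a) (Subgroup.mem_top b)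
    · have h' : a ^ k * b ^ l ∈ (⊤ : Subgroup C).lowerCentralSeries 1 := by
        rw [Subgroup.top_lowerCentralSeries_one]; exact h
      have h1 := central_mod 1 h' b
      rw [mem_lcs_iff, map_commutatorElement, commutatorElement_eq_one_iff_commute]
      have h2 : a ^ k = (a ^ k * b ^ l) * (b ^ l)⁻¹ := by group
      rw [h2, map_mul]
      apply h1.mul_left
      rw [← zpow_neg, map_zpow]
      exact (Commute.refl _).zpow_left _
  have hle := commutator_le_of_pair a b hgen (powSub C k 1) hab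
  rw [Subgroup.top_lowerCentralSeries_one] at hw
  exact (hle hw).2

/-- In a torsion-free nilpotent group with two noncommuting generators `a`, `b` no product
`a ^ k * b ^ l` is in the commutator subgroup, except for `k = l = 0`. -/
theorem exponents_zero [hnil : Group.IsNilpotent C]
    (htf : ∀ x : C, ∀ n : ℕ, 0 < n → x ^ n = 1 → x = 1) (a b : C)
    (hgen : Subgroup.closure {a, b} = ⊤) (hab : ⁅a, b⁆ ≠ 1) (k l : ℤ)
    (h : a ^ k * b ^ l ∈ commutator C) : k = 0 ∧ l = 0 := by
  have key : ∀ (a b : C), Subgroup.closure {a, b} = ⊤ → ⁅a, b⁆ ≠ 1 → ∀ k l : ℤ,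
      a ^ k * b ^ l ∈ commutator C → k = 0 := by
    intro a b hgen hab k l h
    by_contra hk
    have h1 : ∀ i, ∀ w ∈ (⊤ : Subgroup C).lowerCentralSeries (i + 1),
        w ^ k ∈ (⊤ : Subgroup C).lowerCentralSeries (i + 2) := by
      intro i
      induction i with
      | zero => exact lcs_base a b hgen k l h
      | succ i ih => exact lcs_step k (i + 1) ih
    obtain ⟨n, hn⟩ := Subgroup.nilpotent_iff_lowerCentralSeries.1 hnil
    have h2 : ∀ i, ⁅a, b⁆ ^ (k ^ i) ∈ (⊤ : Subgroup C).lowerCentralSeries (i + 1) := by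
      intro i
      induction i with
      | zero =>
        rw [pow_zero, zpow_one, Subgroup.lowerCentralSeries_succ]
        exact Subgroup.commutator_mem_commutator (Subgroup.mem_top a) (Subgroup.mem_top b)
      | succ i ih =>
        rw [pow_succ, zpow_mul]
        exact h1 i _ ih
    have h3 : ⁅a, b⁆ ^ (k ^ n) = 1 := by
      have h4 := (⊤ : Subgroup C).lowerCentralSeries_antitone (Nat.le_succ n) (h2 n)
      rw [hn] at h4
      exact Subgroup.mem_bot.1 h4
    have h5 : k ^ n ≠ 0 := pow_ne_zero n hk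
    apply hab
    apply htf _ (k ^ n).natAbs (Int.natAbs_pos.2 h5)
    rcases Int.natAbs_eq (k ^ n) with h6 | h6
    · rw [← zpow_natCast, ← h6, h3]
    · rw [← inv_inj, ← zpow_natCast, ← zpow_neg, ← h6, h3, inv_one]
  have hk := key a b hgen hab k l h
  refine ⟨hk, ?_⟩
  subst hk
  apply key b a (by rw [Set.pair_comm]; exact hgen) (by
    intro h0
    apply hab
    rw [← commutatorElement_inv, h0, inv_one]) l 0
  simpa using h

/-- A subgroup of a nilpotent group which generates the abelianization is everything. -/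
theorem eq_top_of_sup [hnil : Group.IsNilpotent C] (L : Subgroup C)
    (h : L ⊔ commutator C = ⊤) : L = ⊤ := by
  have key : ∀ i, L ⊔ (⊤ : Subgroup C).lowerCentralSeries (i + 1) = ⊤ := by
    intro i
    induction i with
    | zero => rw [zero_add, Subgroup.top_lowerCentralSeries_one]; exact h
    | succ i ih =>
      have hle : commutator C ≤ L ⊔ (⊤ : Subgroup C).lowerCentralSeries (i + 2) := by
        rw [commutator_def, Subgroup.commutator_le]
        intro x _ y _
        have hx : x ∈ L ⊔ (⊤ : Subgroup C).lowerCentralSeries (i + 1) := by rw [ih]; trivial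
        have hy : y ∈ L ⊔ (⊤ : Subgroup C).lowerCentralSeries (i + 1) := by rw [ih]; trivial
        rw [Subgroup.mem_sup_of_normal_right] at hx hy
        obtain ⟨m, hm, z, hz, rfl⟩ := hx
        obtain ⟨m', hm', z', hz', rfl⟩ := hy
        have hc := fun t => central_mod (i + 1) hz t
        have hc' := fun t => central_mod (i + 1) hz' t
        have h1 : QuotientGroup.mk' ((⊤ : Subgroup C).lowerCentralSeries (i + 1 + 1))
            (⁅m, m'⁆⁻¹ * ⁅m * z, m' * z'⁆) = 1 := by
          set π := QuotientGroup.mk' ((⊤ : Subgroup C).lowerCentralSeries (i + 1 + 1)) with hπ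
          have e1 : ⁅π m * π z, π m' * π z'⁆ = ⁅π m, π m'⁆ := by
            have a1 : π z * π m' = π m' * π z := hc m'
            have a2 : π z * π z' = π z' * π z := hc z'
            have a3 : π z' * π m = π m * π z' := hc' m
            have a4 : (π z')⁻¹ * (π m')⁻¹ = (π m')⁻¹ * (π z')⁻¹ :=
              ((hc' m').inv_left.inv_right).eq
            calc ⁅π m * π z, π m' * π z'⁆
                = π m * (π z * π m') * π z' * (π z)⁻¹ * (π m)⁻¹ * ((π z')⁻¹ * (π m')⁻¹) := by
                  rw [commutatorElement_def]; group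
              _ = π m * π m' * (π z * π z') * (π z)⁻¹ * (π m)⁻¹ * ((π m')⁻¹ * (π z')⁻¹) := by
                  rw [a1, a4]; group
              _ = π m * π m' * (π z' * (π m)⁻¹) * ((π m')⁻¹ * (π z')⁻¹) := by
                  rw [a2]; group
              _ = π m * π m' * ((π m)⁻¹ * π z') * ((π m')⁻¹ * (π z')⁻¹) := by
                  rw [((hc' m).inv_right).eq]
              _ = π m * π m' * (π m)⁻¹ * (π z' * (π m')⁻¹) * (π z')⁻¹ := by group
              _ = π m * π m' * (π m)⁻¹ * ((π m')⁻¹ * π z') * (π z')⁻¹ := by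
                  rw [((hc' m').inv_right).eq]
              _ = ⁅π m, π m'⁆ := by rw [commutatorElement_def]; group
          rw [map_mul, map_inv, map_commutatorElement, map_commutatorElement, map_mul, map_mul,
            e1, inv_mul_cancel]
        have h2 : ⁅m, m'⁆⁻¹ * ⁅m * z, m' * z'⁆ ∈ (⊤ : Subgroup C).lowerCentralSeries (i + 2) :=
          (mem_lcs_iff _ _).2 h1
        have h3 : ⁅m * z, m' * z'⁆ = ⁅m, m'⁆ * (⁅m, m'⁆⁻¹ * ⁅m * z, m' * z'⁆) := by group
        rw [h3]
        refine Subgroup.mul_mem_sup ?_ h2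
        rw [commutatorElement_def]
        exact L.mul_mem (L.mul_mem (L.mul_mem hm hm') (L.inv_mem hm)) (L.inv_mem hm')
      exact top_le_iff.1 (h.symm.le.trans (sup_le le_sup_left hle))
  obtain ⟨n, hn⟩ := Subgroup.nilpotent_iff_lowerCentralSeries.1 hnil
  have h1 := key n
  have h2 : (⊤ : Subgroup C).lowerCentralSeries (n + 1) = ⊥ := by
    rw [eq_bot_iff, ← hn]
    exact (⊤ : Subgroup C).lowerCentralSeries_antitone (Nat.le_succ n)
  rw [h2, sup_bot_eq] at h1
  exact h1

/-- A homomorphism to a torsion-free nilpotent group with nonabelian image, on a group whose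
abelianization is generated by two elements, has its kernel in the commutator subgroup. -/
theorem ker_le_commutator {Q : Type*} [Group Q] [Group.IsNilpotent Q]
    (htf : ∀ x : Q, ∀ n : ℕ, 0 < n → x ^ n = 1 → x = 1) (f : C →* Q) (a b : C)
    (hgen : Subgroup.closure {a, b} ⊔ commutator C = ⊤) (hab : ∃ x y : C, f ⁅x, y⁆ ≠ 1) :
    f.ker ≤ commutator C := by
  intro x hx
  have h1 : Abelianization.of x ∈ Subgroup.closure {Abelianization.of a, Abelianization.of b} := by
    have h2 : (Subgroup.closure {a, b} ⊔ commutator C).map (Abelianization.of (G := C)) =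
        Subgroup.closure {Abelianization.of a, Abelianization.of b} := by
      rw [Subgroup.map_sup, MonoidHom.map_closure, Set.image_pair]
      have h3 : (commutator C).map (Abelianization.of (G := C)) = ⊥ := by
        rw [Subgroup.map_eq_bot_iff, Abelianization.ker_of]
      rw [h3, sup_bot_eq]
    rw [← h2, hgen]
    exact ⟨x, trivial, rfl⟩
  rw [Subgroup.mem_closure_pair] at h1
  obtain ⟨k, l, hkl⟩ := h1
  have h3 : (a ^ k * b ^ l) * x⁻¹ ∈ commutator C := by
    rw [← Abelianization.ker_of, MonoidHom.mem_ker, map_mul, map_mul, map_zpow, map_zpow, map_inv,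
      hkl, mul_inv_cancel]
  have h5 : (commutator C).map f.rangeRestrict ≤ commutator f.range := by
    rw [commutator_def, commutator_def, Subgroup.map_commutator]
    exact Subgroup.commutator_mono le_top le_top
  have h4 : f.rangeRestrict ((a ^ k * b ^ l) * x⁻¹) ∈ commutator f.range := h5 ⟨_, h3, rfl⟩
  have h6 : f.rangeRestrict x = 1 := Subtype.ext hx
  rw [map_mul, map_inv, h6, inv_one, mul_one, map_mul, map_zpow, map_zpow] at h4
  have h7 : Subgroup.closure {f.rangeRestrict a, f.rangeRestrict b} = ⊤ := by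
    apply eq_top_of_sup
    rw [eq_top_iff, ← Subgroup.map_top_of_surjective _ f.rangeRestrict_surjective, ← hgen,
      Subgroup.map_sup, MonoidHom.map_closure, Set.image_pair]
    exact sup_le_sup_left h5 _
  have h8 : ⁅f.rangeRestrict a, f.rangeRestrict b⁆ ≠ 1 := by
    intro h0
    have h9 := commutator_le_of_pair _ _ h7 ⊥ (Subgroup.mem_bot.2 h0)
    obtain ⟨x, y, hxy⟩ := hab
    apply hxy
    have h10 : ⁅f.rangeRestrict x, f.rangeRestrict y⁆ ∈ commutator f.range :=
      Subgroup.commutator_mem_commutator (Subgroup.mem_top _) (Subgroup.mem_top _)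
    have h11 := Subgroup.mem_bot.1 (h9 h10)
    rw [← map_commutatorElement] at h11
    exact congrArg Subtype.val h11
  obtain ⟨rfl, rfl⟩ := exponents_zero (C := f.range) (fun x n hn hx => by
    apply Subtype.ext
    exact htf x.1 n hn (congrArg Subtype.val hx)) _ _ h7 h8 k l h4
  have h9 : x⁻¹ ∈ commutator C := by simpa using h3
  exact (Subgroup.inv_mem_iff _).1 h9

end basic

section adm

variable {H : Type*} [Group H]

/-- `N` is normal with torsion-free nilpotent quotient. -/
structure Adm (N : Subgroup H) : Prop where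
  normal : N.Normal
  nil : ∃ n, (⊤ : Subgroup H).lowerCentralSeries n ≤ N
  tf : ∀ x : H, ∀ k : ℕ, 0 < k → x ^ k ∈ N → x ∈ N

lemma nil_iff (N : Subgroup H) [N.Normal] :
    Group.IsNilpotent (H ⧸ N) ↔ ∃ n, (⊤ : Subgroup H).lowerCentralSeries n ≤ N := by
  rw [Subgroup.nilpotent_iff_lowerCentralSeries]
  have e : ∀ n, (⊤ : Subgroup (H ⧸ N)).lowerCentralSeries n =
      ((⊤ : Subgroup H).lowerCentralSeries n).map (QuotientGroup.mk' N) := by
    intro n
    rw [Subgroup.map_lowerCentralSeries,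
      Subgroup.map_top_of_surjective _ (QuotientGroup.mk'_surjective N)]
  constructor
  · rintro ⟨n, hn⟩
    refine ⟨n, ?_⟩
    rw [e, Subgroup.map_eq_bot_iff, QuotientGroup.ker_mk'] at hn
    exact hn
  · rintro ⟨n, hn⟩
    refine ⟨n, ?_⟩
    rw [e, Subgroup.map_eq_bot_iff, QuotientGroup.ker_mk']
    exact hn

lemma adm_of (N : Subgroup H) [N.Normal] (h1 : Group.IsNilpotent (H ⧸ N))
    (h2 : ∀ x : H ⧸ N, ∀ k : ℕ, 0 < k → x ^ k = 1 → x = 1) : Adm N := by
  refine ⟨inferInstance, (nil_iff N).1 h1, fun x k hk hx => ?_⟩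
  have h3 := h2 (QuotientGroup.mk' N x) k hk (by
    rw [← map_pow, ← MonoidHom.mem_ker, QuotientGroup.ker_mk']
    exact hx)
  rwa [← MonoidHom.mem_ker, QuotientGroup.ker_mk'] at h3

lemma Adm.inf {N N' : Subgroup H} (h : Adm N) (h' : Adm N') : Adm (N ⊓ N') := by
  have := h.normal
  have := h'.normal
  obtain ⟨n, hn⟩ := h.nil
  obtain ⟨n', hn'⟩ := h'.nil
  refine ⟨inferInstance, ⟨max n n', le_inf ?_ ?_⟩, fun x k hk hx => ?_⟩
  · exact (Subgroup.lowerCentralSeries_antitone _ (le_max_left _ _)).trans hn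
  · exact (Subgroup.lowerCentralSeries_antitone _ (le_max_right _ _)).trans hn'
  · exact ⟨h.tf x k hk hx.1, h'.tf x k hk hx.2⟩

/-- Nonabelian subgroups whose abelianization is generated by two elements. -/
theorem adm_pair (hR : ∀ g : H, g ≠ 1 → ∃ N : Subgroup H, Adm N ∧ g ∉ N) (C : Subgroup H)
    (hab : ∃ x ∈ C, ∃ y ∈ C, ⁅x, y⁆ ≠ 1)
    (hC : ∃ a ∈ C, ∃ b ∈ C, C ≤ Subgroup.closure {a, b} ⊔ ⁅C, C⁆) :
    ∃ N : Subgroup H, Adm N ∧ N ⊓ C ≤ ⁅C, C⁆ := by
  obtain ⟨x, hx, y, hy, hxy⟩ := hab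
  obtain ⟨N, hN, hg⟩ := hR _ hxy
  refine ⟨N, hN, ?_⟩
  have := hN.normal
  obtain ⟨a, ha, b, hb, hC⟩ := hC
  have hnil : Group.IsNilpotent (H ⧸ N) := (nil_iff N).2 hN.nil
  have htf : ∀ x : H ⧸ N, ∀ n : ℕ, 0 < n → x ^ n = 1 → x = 1 := by
    intro x n hn hx
    obtain ⟨x, rfl⟩ := QuotientGroup.mk'_surjective N x
    rw [← map_pow, ← MonoidHom.mem_ker, QuotientGroup.ker_mk'] at hx
    rw [← MonoidHom.mem_ker, QuotientGroup.ker_mk']
    exact hN.tf x n hn hx
  have hgen : Subgroup.closure {(⟨a, ha⟩ : C), ⟨b, hb⟩} ⊔ commutator C = ⊤ := by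
    apply (Subgroup.map_injective C.subtype_injective)
    rw [Subgroup.map_sup, MonoidHom.map_closure, Set.image_pair, Subgroup.map_subtype_commutator,
      ← MonoidHom.range_eq_map, Subgroup.range_subtype]
    apply le_antisymm _ hC
    rw [sup_le_iff, Subgroup.closure_le]
    refine ⟨?_, Subgroup.commutator_le_self C⟩
    rintro z (rfl | hz)
    · exact ha
    · rw [Set.mem_singleton_iff.1 hz]; exact hb
  have hker := ker_le_commutator htf ((QuotientGroup.mk' N).comp C.subtype) (⟨a, ha⟩ : C)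
    ⟨b, hb⟩ hgen ⟨⟨x, hx⟩, ⟨y, hy⟩, by
      intro h0
      apply hg
      have h1 : QuotientGroup.mk' N ⁅x, y⁆ = 1 := h0
      rwa [← MonoidHom.mem_ker, QuotientGroup.ker_mk'] at h1⟩
  rintro x ⟨hxN, hxC⟩
  rw [← Subgroup.map_subtype_commutator]
  refine ⟨⟨x, hxC⟩, hker ?_, rfl⟩
  show QuotientGroup.mk' N x = 1
  rwa [← MonoidHom.mem_ker, QuotientGroup.ker_mk']

/-- Finitely generated abelian subgroups. -/
theorem adm_abelian (hR : ∀ g : H, g ≠ 1 → ∃ N : Subgroup H, Adm N ∧ g ∉ N) (C : Subgroup H)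
    (hfg : C.FG) (hc : ∀ x ∈ C, ∀ y ∈ C, x * y = y * x) :
    ∃ N : Subgroup H, Adm N ∧ N ⊓ C = ⊥ := by
  classical
  let _ : CommGroup C :=
    { (inferInstance : Group C) with mul_comm := fun x y => Subtype.ext (hc x x.2 y y.2) }
  have hfin : Module.Finite ℤ (Additive C) := by
    rw [Module.Finite.iff_addGroup_fg]
    have : Group.FG C := (Group.fg_iff_subgroup_fg C).2 hfg
    infer_instance
  let P : Subgroup H → Submodule ℤ (Additive C) := fun N =>
    AddSubgroup.toIntSubmodule (Subgroup.toAddSubgroup (N.subgroupOf C))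
  have hPmem : ∀ (N : Subgroup H) (x : C), Additive.ofMul x ∈ P N ↔ (x : H) ∈ N :=
    fun N x => Iff.rfl
  have htop : Adm (⊤ : Subgroup H) := ⟨inferInstance, ⟨0, le_top⟩, fun _ _ _ _ => trivial⟩
  have hex : ∃ n : ℕ, ∃ N : Subgroup H, Adm N ∧ Module.finrank ℤ (P N) = n :=
    ⟨_, ⊤, htop, rfl⟩
  obtain ⟨N, hN, hNf⟩ := Nat.find_spec hex
  have hmin : ∀ N' : Subgroup H, Adm N' → Module.finrank ℤ (P N) ≤ Module.finrank ℤ (P N') := by
    intro N' hN'
    rw [hNf]
    exact Nat.find_min' hex ⟨N', hN', rfl⟩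
  refine ⟨N, hN, ?_⟩
  rw [eq_bot_iff]
  rintro g ⟨hgN, hgC⟩
  rw [Subgroup.mem_bot]
  by_contra hg
  obtain ⟨N', hN', hgN'⟩ := hR g hg
  have hle : P (N ⊓ N') ≤ P N := fun x hx => hx.1
  let P' : Submodule ℤ (P N) := (P (N ⊓ N')).submoduleOf (P N)
  have h1 : Module.finrank ℤ P' = Module.finrank ℤ (P (N ⊓ N')) :=
    LinearEquiv.finrank_eq (Submodule.submoduleOfEquivOfLe hle)
  have h2 := Submodule.finrank_quotient_add_finrank P'
  have h3 := hmin _ (hN.inf hN')
  have h4 : Module.finrank ℤ (P N ⧸ P') = 0 := by omega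
  rw [Module.finrank_eq_zero_iff] at h4
  obtain ⟨a, ha, h5⟩ := h4 (Submodule.Quotient.mk (p := P') ⟨Additive.ofMul ⟨g, hgC⟩, hgN⟩)
  rw [← Submodule.Quotient.mk_smul, Submodule.Quotient.mk_eq_zero] at h5
  have h6 : (g ^ a : H) ∈ N ⊓ N' := h5
  apply hgN'
  have h7 : g ^ a.natAbs ∈ N' := by
    rcases Int.natAbs_eq a with h8 | h8
    · rw [← zpow_natCast, ← h8]; exact h6.2
    · rw [← Subgroup.inv_mem_iff, ← zpow_natCast, ← zpow_neg, ← h8]; exact h6.2
  exact hN'.tf g _ (Int.natAbs_pos.2 ha) h7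

/-- Finite intersections. -/
theorem adm_iInf {ι : Type*} [Finite ι] (f : ι → Subgroup H)
    (hf : ∀ i, (f i).Normal ∧ ∃ n, (⊤ : Subgroup H).lowerCentralSeries n ≤ f i) :
    (⨅ i, f i).Normal ∧ ∃ n, (⊤ : Subgroup H).lowerCentralSeries n ≤ ⨅ i, f i := by
  choose hn n hle using hf
  obtain ⟨m, hm⟩ := (Set.finite_range n).bddAbove
  refine ⟨Subgroup.normal_iInf_normal hn, m, le_iInf fun i => ?_⟩
  exact (Subgroup.lowerCentralSeries_antitone _ (hm ⟨i, rfl⟩)).trans (hle i)

end adm

end Pool.Agent.H8.PFT
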