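import Pool.Agent.H3.HG.All
import Pool.Agent.H8.PFT.Exact
import Pool.Agent.H8.PFT.Nil

/-!
Second homology in a lower central genus and actions on trees: the theorems in terms of Mathlib's
group homology.
-/

set_option autoImplicit false

namespace Pool.Agent.H8.PFT

open Pool.Agent.H3.HG CategoryTheory
open scoped commutatorElement

/-- Transfer of a statement about the chain level to group homology. -/
theorem transfer {H : Type} [Group H] {V : Type*} (K : V → Subgroup H)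
    (h : ∀ z ∈ Z2 H, z ∈ ⨆ v : V, (Z2 (K v)).map (Mmap (K v).subtype)) (z : HH H) :
    z ∈ ⨆ v : V, (HHmap (K v).subtype).range := by
  obtain ⟨J, hJ⟩ := H57.HG.pf_API
  let L : HH H →+ M H := (Z2 H).subtype.comp (J H).toAddMonoidHom
  have hL : Function.Injective L := by
    intro a b hab
    exact (J H).injective (Subtype.ext hab)
  have h1 : ∀ v, ((HHmap (K v).subtype).range).map L = (Z2 (K v)).map (Mmap (K v).subtype) := by
    intro v
    apply le_antisymm
    · rintro _ ⟨_, ⟨x, rfl⟩, rfl⟩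
      exact ⟨_, (J (K v) x).2, (hJ _ _ (K v).subtype x).symm⟩
    · rintro _ ⟨m, hm, rfl⟩
      refine ⟨HHmap (K v).subtype ((J (K v)).symm ⟨m, hm⟩), ⟨_, rfl⟩, ?_⟩
      show ((J H (HHmap (K v).subtype ((J (K v)).symm ⟨m, hm⟩)) : Z2 H) : M H) = _
      rw [hJ, AddEquiv.apply_symm_apply]
  have h2 : (⨆ v : V, (HHmap (K v).subtype).range).map L =
      ⨆ v : V, (Z2 (K v)).map (Mmap (K v).subtype) := by
    rw [AddSubgroup.map_iSup]
    exact iSup_congr h1
  have h3 : L z ∈ (⨆ v : V, (HHmap (K v).subtype).range).map L := by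
    rw [h2]
    exact h _ (J H z).2
  obtain ⟨y, hy, hyz⟩ := h3
  rw [← hL hyz]
  exact hy

/-- Lifts to a normal subgroup with nilpotent quotient on the chain level. -/
theorem lifts (G H : Type) [Group G] [Group H] [Group.FG H]
    (hiso : ∀ n, Nonempty (G ⧸ (⊤ : Subgroup G).lowerCentralSeries n ≃*
      H ⧸ (⊤ : Subgroup H).lowerCentralSeries n)) (hG : Subsingleton (HH G))
    (N : Subgroup H) [N.Normal] (hN : Group.IsNilpotent (H ⧸ N)) (z : M H) (hz : z ∈ Z2 H) :
    ∃ w ∈ Z2 N, Mmap N.subtype w = z := by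
  obtain ⟨J, hJ⟩ := H57.HG.pf_API
  obtain ⟨y, hy⟩ := genus G H hiso hG N hN ((J H).symm ⟨z, hz⟩)
  refine ⟨_, (J N y).2, ?_⟩
  rw [← hJ, hy, AddEquiv.apply_symm_apply]

/-- The zero clause. -/
theorem zero_of_gen {H : Type} [Group H] {V : Type*} (K : V → Subgroup H)
    (h : ∀ z : HH H, z ∈ ⨆ v : V, (HHmap (K v).subtype).range)
    (h0 : ∀ v, Subsingleton (HH (K v)) ∨ LocFree (K v)) : Subsingleton (HH H) := by
  have h1 : ∀ v, Subsingleton (HH (K v)) := by
    intro v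
    rcases h0 v with h | h
    · exact h
    · exact locFree_subsingleton _ h
  have h2 : (⨆ v : V, (HHmap (K v).subtype).range) = ⊥ := by
    rw [iSup_eq_bot]
    intro v
    rw [eq_bot_iff]
    rintro _ ⟨x, rfl⟩
    have := h1 v
    rw [Subsingleton.elim x 0, map_zero]
    exact AddSubgroup.zero_mem _
  have h3 : ∀ z : HH H, z = 0 := by
    intro z
    have := h z
    rw [h2] at this
    exact AddSubgroup.mem_bot.1 this
  exact ⟨fun a b => by rw [h3 a, h3 b]⟩

section main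

variable (G H : Type) [Group G] [Group H] [Group.FG H]
    (hiso : ∀ n, Nonempty (G ⧸ (⊤ : Subgroup G).lowerCentralSeries n ≃*
      H ⧸ (⊤ : Subgroup H).lowerCentralSeries n)) (hG : Subsingleton (HH G))
    {V : Type*} [MulAction H V] {T : SimpleGraph V} (hT : T.IsTree)
    (hadj : ∀ (g : H) (u v : V), T.Adj u v → T.Adj (g • u) (g • v))
    (hinv : ∀ (g : H) (u v : V), T.Adj u v → ¬ (g • u = v ∧ g • v = u))

include hiso hG hT hadj hinv

theorem closed_gen
    (hcl : ∀ u v, T.Adj u v → ∀ x ∈ St H u v, x ∉ ⁅St H u v, St H u v⁆ →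
      ∃ (N : Subgroup H) (_ : N.Normal), Group.IsNilpotent (H ⧸ N) ∧
        ∀ y ∈ ⁅St H u v, St H u v⁆, y * x ∉ N) (z : HH H) :
    z ∈ ⨆ v : V, (HHmap (MulAction.stabilizer H v).subtype).range := by
  apply transfer (fun v => MulAction.stabilizer H v)
  intro z hz
  apply main_closed hT hadj hinv z hz
  intro u v huv x hx hxc
  obtain ⟨N, hNn, hnil, hN⟩ := hcl u v huv x hx hxc
  refine ⟨N, hNn, lifts G H hiso hG N hnil z hz, fun n hn _ hc => ?_⟩
  apply hN _ (Subgroup.inv_mem _ hc)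
  have : (x * n⁻¹)⁻¹ * x = n := by group
  rw [this]
  exact hn

theorem family_gen (N : Subgroup H) [N.Normal] (hN : Group.IsNilpotent (H ⧸ N))
    (K : V → Subgroup H) (hNK : ∀ v, ∀ n ∈ N, n • v = v → n ∈ K v)
    (hKN : ∀ n ∈ N, ∀ v g, g ∈ K (n • v) → n⁻¹ * g * n ∈ K v)
    (hc : ∀ u v, T.Adj u v → ∀ n ∈ N, n • u = u → n • v = v → n ∈ ⁅K u ⊓ K v, K u ⊓ K v⁆)
    (z : HH H) : z ∈ ⨆ v : V, (HHmap (K v).subtype).range := by
  apply transfer K
  intro z hz
  obtain ⟨w, hw, rfl⟩ := lifts G H hiso hG N hN z hz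
  exact vertices hT N (fun g _ => hadj g) (fun g _ => hinv g) K hNK hKN hc w hw

end main

/-- Abelian subgroups, and subgroups whose abelianization is generated by two elements, have closed
commutator subgroup, in residually torsion-free nilpotent groups. -/
theorem small_closed {H : Type*} [Group H]
    (hR : ∀ g : H, g ≠ 1 → ∃ (N : Subgroup H) (_ : N.Normal), g ∉ N ∧
      Group.IsNilpotent (H ⧸ N) ∧ ∀ x : H ⧸ N, ∀ k : ℕ, 0 < k → x ^ k = 1 → x = 1)
    (C : Subgroup H)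
    (hC : (∀ x ∈ C, ∀ y ∈ C, x * y = y * x) ∨
      ∃ a ∈ C, ∃ b ∈ C, C ≤ Subgroup.closure {a, b} ⊔ ⁅C, C⁆) (x : H) (hx : x ∈ C)
    (hxc : x ∉ ⁅C, C⁆) :
    ∃ (N : Subgroup H) (_ : N.Normal), Group.IsNilpotent (H ⧸ N) ∧ ∀ y ∈ ⁅C, C⁆, y * x ∉ N := by
  have hR' : ∀ g : H, g ≠ 1 → ∃ N : Subgroup H, Adm N ∧ g ∉ N := by
    intro g hg
    obtain ⟨N, hNn, h1, h2, h3⟩ := hR g hg
    exact ⟨N, adm_of N h2 h3, h1⟩
  by_cases hab : ∀ x ∈ C, ∀ y ∈ C, x * y = y * x
  · have hbot : ⁅C, C⁆ = ⊥ := by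
      rw [eq_bot_iff, Subgroup.commutator_le]
      intro a ha b hb
      rw [Subgroup.mem_bot, commutatorElement_eq_one_iff_mul_comm]
      exact hab a ha b hb
    obtain ⟨N, hN, hx1⟩ := hR' x (by
      rintro rfl
      exact hxc (Subgroup.one_mem _))
    have := hN.normal
    refine ⟨N, hN.normal, (nil_iff N).2 hN.nil, fun y hy hyN => ?_⟩
    rw [hbot, Subgroup.mem_bot] at hy
    rw [hy, one_mul] at hyN
    exact hx1 hyN
  · have hC' : ∃ a ∈ C, ∃ b ∈ C, C ≤ Subgroup.closure {a, b} ⊔ ⁅C, C⁆ := by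
      rcases hC with h | h
      · exact absurd h hab
      · exact h
    have hab' : ∃ x ∈ C, ∃ y ∈ C, ⁅x, y⁆ ≠ 1 := by
      by_contra hcon
      apply hab
      intro x hx y hy
      by_contra hxy
      apply hcon
      refine ⟨x, hx, y, hy, fun h => hxy ?_⟩
      exact commutatorElement_eq_one_iff_mul_comm.1 h
    obtain ⟨N, hN, hle⟩ := adm_pair hR' C hab' hC'
    have := hN.normal
    refine ⟨N, hN.normal, (nil_iff N).2 hN.nil, fun y hy hyN => ?_⟩
    have h1 : y * x ∈ ⁅C, C⁆ :=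
      hle ⟨hyN, C.mul_mem (Subgroup.commutator_le_self C hy) hx⟩
    exact hxc ((Subgroup.mul_mem_cancel_left _ hy).1 h1)

end Pool.Agent.H8.PFT
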