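import Pool.Agent.H8.PFT.Chain

/-!
The boundary map of a group acting on a tree: the second homology modulo the part of the vertex
stabilisers embeds in the direct sum of the abelianised edge stabilisers (in elementary form), and
classes of a normal subgroup `N` have their boundary in the image of the intersections with `N`.
-/

set_option autoImplicit false

namespace Pool.Agent.H8.PFT

open Pool.Agent.H3.HG Finsupp SimpleGraph
open scoped commutatorElement

variable {H : Type} [Group H] {V : Type*} [MulAction H V] {T : SimpleGraph V}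

/-- A cocycle on the oriented edges. -/
structure IsEC {D : Type*} [AddCommGroup D] (T : SimpleGraph V) (γ : H → V → V → D) : Prop where
  anti : ∀ g u v, T.Adj u v → γ g v u = -γ g u v
  coc : ∀ g h u v, T.Adj u v → γ (g * h) u v = γ g (h • u) (h • v) + γ h u v

/-- A 2-cocycle defines a homomorphism on `M H`. -/
theorem lift_M {D : Type*} [AddCommGroup D] (f : H → H → D)
    (hf : ∀ g h k, f h k - f (g * h) k + f g (h * k) - f g h = 0) :
    ∃ Φ : M H →+ D, (∀ g h, Φ (br g h) = f g h) ∧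
      ∀ c : H × H →₀ ℤ, Φ (QuotientAddGroup.mk c) = c.sum fun p n => n • f p.1 p.2 := by
  let F : (H × H →₀ ℤ) →+ D := Finsupp.liftAddHom fun p => (zmultiplesHom D (f p.1 p.2) : ℤ →+ D)
  have hF : ∀ c : H × H →₀ ℤ, F c = c.sum fun p n => n • f p.1 p.2 := by
    intro c
    rfl
  have hF1 : ∀ g h, F (single (g, h) 1) = f g h := by
    intro g h
    rw [hF, Finsupp.sum_single_index (by simp), one_smul]
  have hle : bd H ≤ F.ker := by
    rw [bd, AddSubgroup.closure_le]
    rintro c ⟨g, h, k, rfl⟩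
    rw [SetLike.mem_coe, AddMonoidHom.mem_ker, map_sub, map_add, map_sub, hF1, hF1, hF1, hF1]
    exact hf g h k
  exact ⟨QuotientAddGroup.lift (bd H) F hle, hF1, hF⟩

theorem exists_Phi {D : Type*} [AddCommGroup D] (hT : T.IsTree)
    (hadj : ∀ (g : H) u v, T.Adj u v → T.Adj (g • u) (g • v))
    {γ : H → V → V → D} (hγ : IsEC T γ) {o : V} (P : ∀ x, T.Walk o x) :
    ∃ Φ : M H →+ D, (∀ g h, Φ (br g h) = wsum (γ g) (P (h • o))) ∧
      ∀ c : H × H →₀ ℤ, Φ (QuotientAddGroup.mk c) =
        c.sum fun p n => n • wsum (γ p.1) (P (p.2 • o)) := by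
  choose B hB using fun g => potential hT (γ g) (hγ.anti g)
  have hw : ∀ g x, wsum (γ g) (P x) = B g x - B g o := fun g x =>
    wsum_potential (γ g) (B g) (hB g) (P x)
  have hdiff : ∀ g h u v, B (g * h) v - B (g * h) u =
      (B g (h • v) - B g (h • u)) + (B h v - B h u) := by
    intro g h u v
    obtain ⟨p⟩ := hT.1.preconnected u v
    induction p with
    | nil => simp
    | cons e p ih =>
      rename_i u w v
      have h1 := hγ.coc g h u w e
      rw [← hB _ _ _ e, ← hB _ _ _ (hadj h _ _ e), ← hB _ _ _ e] at h1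
      have h2 : B (g * h) v - B (g * h) u = (B (g * h) v - B (g * h) w) +
          (B (g * h) w - B (g * h) u) := by abel
      rw [h2, ih, h1]
      abel
  apply lift_M
  intro g h k
  rw [hw, hw, hw, hw, mul_smul]
  have h1 := hdiff g h o (k • o)
  have h2 : B h (k • o) - B h o - (B (g * h) (k • o) - B (g * h) o) +
      (B g (h • k • o) - B g o) - (B g (h • o) - B g o) =
      ((B g (h • k • o) - B g (h • o)) + (B h (k • o) - B h o)) -
        (B (g * h) (k • o) - B (g * h) o) := by abel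
  rw [h2, h1, sub_self]

/-- A cocycle which vanishes on the edge stabilisers in `N` has no value on the classes of `N`. -/
theorem restrict {D : Type*} [AddCommGroup D] (hT : T.IsTree)
    (hadj : ∀ (g : H) u v, T.Adj u v → T.Adj (g • u) (g • v))
    (hinv : ∀ (g : H) u v, T.Adj u v → ¬ (g • u = v ∧ g • v = u))
    {γ : H → V → V → D} (hγ : IsEC T γ) {o : V} (P : ∀ x, T.Walk o x) (N : Subgroup H)
    (h0 : ∀ s ∈ N, ∀ u v, T.Adj u v → s • u = u → s • v = v → γ s u v = 0)
    (Φ : M H →+ D) (hΦ : ∀ g h, Φ (br g h) = wsum (γ g) (P (h • o))) (w : M N) (hw : w ∈ Z2 N) :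
    Φ (Mmap N.subtype w) = 0 := by
  obtain ⟨ρ, n, hn, hρ, hsw⟩ := exists_pairRep N V
  let β : V → V → D := fun u v => γ (n (u, v)) (ρ (u, v)).1 (ρ (u, v)).2
  have hadjρ : ∀ u v, T.Adj u v → T.Adj (ρ (u, v)).1 (ρ (u, v)).2 := by
    intro u v huv
    have h1 : ρ (u, v) = (n (u, v))⁻¹ • (u, v) := by
      rw [eq_inv_smul_iff, hn]
    rw [h1]
    exact hadj _ _ _ huv
  have hind : ∀ u v, T.Adj u v → ∀ m : N, m • ρ (u, v) = (u, v) →
      γ m (ρ (u, v)).1 (ρ (u, v)).2 = β u v := by
    intro u v huv m hm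
    have h1 : ((n (u, v))⁻¹ * m) • ρ (u, v) = ρ (u, v) := by
      rw [mul_smul, hm, inv_smul_eq_iff, hn]
    have h1a : (((n (u, v))⁻¹ * m : N) : H) • (ρ (u, v)).1 = (ρ (u, v)).1 := congrArg Prod.fst h1
    have h1b : (((n (u, v))⁻¹ * m : N) : H) • (ρ (u, v)).2 = (ρ (u, v)).2 := congrArg Prod.snd h1
    have h2 : (m : H) = (n (u, v) : H) * (((n (u, v))⁻¹ * m : N) : H) := by
      push_cast
      group
    have h3 := h0 _ ((n (u, v))⁻¹ * m).2 _ _ (hadjρ u v huv) h1a h1b
    rw [h2, hγ.coc _ _ _ _ (hadjρ u v huv), h1a, h1b, h3, add_zero]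
  have hβ : ∀ u v, T.Adj u v → β v u = -β u v := by
    intro u v huv
    have h1 : ρ (v, u) = (ρ (u, v)).swap := by
      have := hsw (u, v) (by
        intro m hm
        exact hinv m u v huv ⟨congrArg Prod.fst hm, congrArg Prod.snd hm⟩)
      exact this
    have h2 : n (v, u) • ρ (u, v) = (u, v) := by
      have := hn (v, u)
      rw [h1] at this
      exact congrArg Prod.swap this
    have h3 := hind u v huv (n (v, u)) h2
    show γ (n (v, u)) (ρ (v, u)).1 (ρ (v, u)).2 = _
    rw [h1, ← h3, Prod.snd_swap, Prod.fst_swap]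
    exact hγ.anti _ _ _ (hadjρ u v huv)
  have hβm : ∀ u v, T.Adj u v → ∀ m ∈ N, β (m • u) (m • v) = γ m u v + β u v := by
    intro u v huv m hm
    let m' : N := ⟨m, hm⟩
    have h1 : ρ (m • u, m • v) = ρ (u, v) := hρ m' (u, v)
    have h2 : (m' * n (u, v)) • ρ (m • u, m • v) = (m • u, m • v) := by
      rw [h1, mul_smul, hn]
      rfl
    have h3 := hind (m • u) (m • v) (hadj m u v huv) (m' * n (u, v)) h2
    rw [← h3, h1]
    have h4 : (((m' * n (u, v) : N)) : H) = m * (n (u, v) : H) := rfl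
    have h5a : (n (u, v) : H) • (ρ (u, v)).1 = u := congrArg Prod.fst (hn (u, v))
    have h5b : (n (u, v) : H) • (ρ (u, v)).2 = v := congrArg Prod.snd (hn (u, v))
    rw [h4, hγ.coc _ _ _ _ (hadjρ u v huv), h5a, h5b]
  obtain ⟨B, hB⟩ := potential hT β hβ
  have hwB : ∀ m ∈ N, ∀ x, wsum (γ m) (P x) = (B (m • x) - B x) - (B (m • o) - B o) := by
    intro m hm x
    apply wsum_potential (γ m) (fun x => B (m • x) - B x)
    intro u v huv
    have h1 := hβm u v huv m hm
    rw [← hB _ _ huv, ← hB _ _ (hadj m _ _ huv)] at h1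
    have h2 : B (m • v) - B v - (B (m • u) - B u) =
        (B (m • v) - B (m • u)) - (B v - B u) := by abel
    rw [h2, h1]
    abel
  refine cycles_kill (Φ.comp (Mmap N.subtype)) (fun g => -(B ((g : H) • o) - B o)) ?_ w hw
  intro g k
  rw [AddMonoidHom.comp_apply, Mmap_br, hΦ]
  show wsum (γ (g : H)) (P ((k : H) • o)) = _
  rw [hwB _ g.2]
  have h1 : ((g * k : N) : H) • o = (g : H) • (k : H) • o := mul_smul _ _ _
  rw [h1]
  abel

/-- The vertex functions attached to a character which vanishes on the classes of the vertex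
stabilisers. -/
theorem exists_a (χ : M H →+ AddCircle (1 : ℚ))
    (hχ : ∀ v : V, ∀ m ∈ Z2 (MulAction.stabilizer H v),
      χ (Mmap (MulAction.stabilizer H v).subtype m) = 0) :
    ∃ a : H → V → AddCircle (1 : ℚ), ∀ g h v,
      a (g * h) v = a g (h • v) + a h v - χ (br g h) := by
  choose b hb using fun v => coboundary χ (hχ v)
  obtain ⟨r, k, hk, hr⟩ := exists_rep H V
  have hbr1 : ∀ v, χ (br 1 1) = b v 1 := by
    intro v
    have := hb v 1 (Subgroup.one_mem _) 1 (Subgroup.one_mem _)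
    rw [this, mul_one]
    abel
  let lam : V → E H → AddCircle (1 : ℚ) := fun v x => χ x.m + b v x.g
  have hlam : ∀ v (x y : E H), x.g • v = v → y.g • v = v →
      lam v (x * y) = lam v x + lam v y := by
    intro v x y hx hy
    show χ (x.m + y.m + br x.g y.g) + b v (x.g * y.g) = _
    rw [map_add, map_add, hb v x.g hx y.g hy]
    show _ = χ x.m + b v x.g + (χ y.m + b v y.g)
    abel
  have hinc : ∀ v (m : M H), lam v (E.inc (Multiplicative.ofAdd m)) = χ m := by
    intro v m
    show χ (m - br 1 1) + b v 1 = χ m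
    rw [map_sub, hbr1 v]
    abel
  let s : H → E H := fun g => ⟨0, g⟩
  let α : E H → V → AddCircle (1 : ℚ) := fun x v => lam (r v) ((s (k (x.g • v)))⁻¹ * x * s (k v))
  have hfix : ∀ (x : E H) v, ((s (k (x.g • v)))⁻¹ * x * s (k v)).g • r v = r v := by
    intro x v
    show ((k (x.g • v))⁻¹ * x.g * k v) • r v = r v
    rw [mul_smul, mul_smul, hk, inv_smul_eq_iff, ← hr x.g v, hk]
  have hco : ∀ (x y : E H) v, α (x * y) v = α x (y.g • v) + α y v := by
    intro x y v
    have e1 : (s (k ((x * y).g • v)))⁻¹ * (x * y) * s (k v) =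
        ((s (k (x.g • y.g • v)))⁻¹ * x * s (k (y.g • v))) *
          ((s (k (y.g • v)))⁻¹ * y * s (k v)) := by
      rw [E.mul_g, mul_smul]; group
    show lam (r v) _ = lam (r (y.g • v)) _ + lam (r v) _
    rw [e1, hr y.g v]
    apply hlam
    · have := hfix x (y.g • v)
      rwa [hr y.g v] at this
    · exact hfix y v
  have hαi : ∀ (m : M H) (x : E H) v, α (E.inc (Multiplicative.ofAdd m) * x) v = χ m + α x v := by
    intro m x v
    have h1 : (E.inc (Multiplicative.ofAdd m) * x).g = x.g := by simp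
    have e1 : (s (k (x.g • v)))⁻¹ * (E.inc (Multiplicative.ofAdd m) * x) * s (k v) =
        E.inc (Multiplicative.ofAdd m) * ((s (k (x.g • v)))⁻¹ * x * s (k v)) := by
      rw [← mul_assoc, ← E.inc_comm]; group
    show lam (r v) ((s (k ((E.inc (Multiplicative.ofAdd m) * x).g • v)))⁻¹ *
      (E.inc (Multiplicative.ofAdd m) * x) * s (k v)) = _
    rw [h1, e1, hlam _ _ _ (one_smul _ _) (hfix x v), hinc]
  refine ⟨fun g v => α (s g) v, fun g h v => ?_⟩
  have hmul : s g * s h = E.inc (Multiplicative.ofAdd (br g h)) * s (g * h) := by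
    ext
    · simp only [s, E.mul_m, E.inc_m, E.inc_g, toAdd_ofAdd, br_one_left]
      abel
    · simp [s]
  have h1 := hco (s g) (s h) v
  rw [hmul, hαi] at h1
  show α (s (g * h)) v = α (s g) (h • v) + α (s h) v - χ (br g h)
  have h2 : α (s g) ((s h).g • v) = α (s g) (h • v) := rfl
  rw [h2] at h1
  rw [← h1]
  abel

/-! ### A single orbit of edges -/

/-- The pair `(u, v)` is a translate of `(u₀, v₀)`. -/
def Om (H : Type) [Group H] {V : Type*} [MulAction H V] (u₀ v₀ u v : V) : Prop :=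
  ∃ k : H, k • u₀ = u ∧ k • v₀ = v

lemma Om_smul {u₀ v₀ : V} (g : H) (u v : V) : Om H u₀ v₀ (g • u) (g • v) ↔ Om H u₀ v₀ u v := by
  constructor
  · rintro ⟨k, h1, h2⟩
    exact ⟨g⁻¹ * k, by rw [mul_smul, h1, inv_smul_smul], by rw [mul_smul, h2, inv_smul_smul]⟩
  · rintro ⟨k, h1, h2⟩
    exact ⟨g * k, by rw [mul_smul, h1], by rw [mul_smul, h2]⟩

open scoped Classical in
/-- The antisymmetric cocycle made from a function on an orbit of oriented edges. -/
noncomputable def asym {D : Type*} [AddCommGroup D] (u₀ v₀ : V) (η : H → V → V → D) :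
    H → V → V → D := fun g u v =>
  (if Om H u₀ v₀ u v then η g u v else 0) - (if Om H u₀ v₀ v u then η g v u else 0)

lemma asym_isEC {D : Type*} [AddCommGroup D] (T : SimpleGraph V) (u₀ v₀ : V)
    (η : H → V → V → D) (hη : ∀ g h u v, Om H u₀ v₀ u v →
      η (g * h) u v = η g (h • u) (h • v) + η h u v) : IsEC T (asym u₀ v₀ η) := by
  classical
  constructor
  · intro g u v _
    simp only [asym]
    abel
  · intro g h u v _
    simp only [asym, Om_smul]
    have key : ∀ u v, (if Om H u₀ v₀ u v then η (g * h) u v else 0) =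
        (if Om H u₀ v₀ u v then η g (h • u) (h • v) else 0) +
          (if Om H u₀ v₀ u v then η h u v else 0) := by
      intro u v
      by_cases hO : Om H u₀ v₀ u v
      · rw [if_pos hO, if_pos hO, if_pos hO, hη g h u v hO]
      · rw [if_neg hO, if_neg hO, if_neg hO, add_zero]
    rw [key u v, key v u]
    abel

/-- The edge stabiliser. -/
abbrev St (H : Type) [Group H] {V : Type*} [MulAction H V] (u v : V) : Subgroup H :=
  MulAction.stabilizer H u ⊓ MulAction.stabilizer H v

open scoped Classical in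
/-- The class in the abelianised edge stabiliser. -/
noncomputable def cls (u₀ v₀ : V) (x : H) : Additive (Abelianization (St H u₀ v₀)) :=
  if hx : x ∈ St H u₀ v₀ then Additive.ofMul (Abelianization.of ⟨x, hx⟩) else 0

lemma cls_of {u₀ v₀ : V} {x : H} (hx : x ∈ St H u₀ v₀) :
    cls u₀ v₀ x = Additive.ofMul (Abelianization.of ⟨x, hx⟩) := dif_pos hx

lemma cls_mul {u₀ v₀ : V} {x y : H} (hx : x ∈ St H u₀ v₀) (hy : y ∈ St H u₀ v₀) :
    cls u₀ v₀ (x * y) = cls u₀ v₀ x + cls u₀ v₀ y := by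
  rw [cls_of hx, cls_of hy, cls_of (Subgroup.mul_mem _ hx hy)]
  rfl

lemma cls_eq_zero {u₀ v₀ : V} {x : H} (hx : x ∈ St H u₀ v₀) :
    cls u₀ v₀ x = 0 ↔ x ∈ ⁅St H u₀ v₀, St H u₀ v₀⁆ := by
  rw [cls_of hx, ← Subgroup.map_subtype_commutator]
  have h1 : (Additive.ofMul (Abelianization.of (⟨x, hx⟩ : St H u₀ v₀)) = 0) ↔
      Abelianization.of (⟨x, hx⟩ : St H u₀ v₀) = 1 := Iff.rfl
  rw [h1, ← MonoidHom.mem_ker, Abelianization.ker_of]
  constructor
  · intro h
    exact ⟨_, h, rfl⟩
  · rintro ⟨y, hy, hyx⟩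
    have : y = ⟨x, hx⟩ := Subtype.ext hyx
    rw [← this]
    exact hy

open scoped Classical in
/-- A translating element. -/
noncomputable def q (H : Type) [Group H] {V : Type*} [MulAction H V] (u₀ v₀ u v : V) : H :=
  if h : Om H u₀ v₀ u v then h.choose else 1

lemma q_spec {u₀ v₀ u v : V} (h : Om H u₀ v₀ u v) :
    q H u₀ v₀ u v • u₀ = u ∧ q H u₀ v₀ u v • v₀ = v := by
  rw [q, dif_pos h]
  exact h.choose_spec

/-- The element of the edge stabiliser attached to `g` and a translate of the edge. -/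
noncomputable def kap (u₀ v₀ : V) (g : H) (u v : V) : H :=
  (q H u₀ v₀ (g • u) (g • v))⁻¹ * g * q H u₀ v₀ u v

lemma kap_mem {u₀ v₀ u v : V} (h : Om H u₀ v₀ u v) (g : H) : kap u₀ v₀ g u v ∈ St H u₀ v₀ := by
  have h1 := q_spec h
  have h2 := q_spec ((Om_smul g u v).2 h)
  constructor
  · show kap u₀ v₀ g u v • u₀ = u₀
    rw [kap, mul_smul, mul_smul, h1.1, inv_smul_eq_iff, h2.1]
  · show kap u₀ v₀ g u v • v₀ = v₀
    rw [kap, mul_smul, mul_smul, h1.2, inv_smul_eq_iff, h2.2]

/-- The universal cocycle of an orbit of edges. -/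
noncomputable def uni (u₀ v₀ : V) : H → V → V → Additive (Abelianization (St H u₀ v₀)) :=
  asym u₀ v₀ fun g u v => cls u₀ v₀ (kap u₀ v₀ g u v)

lemma uni_isEC (T : SimpleGraph V) (u₀ v₀ : V) : IsEC T (uni (H := H) u₀ v₀) := by
  apply asym_isEC
  intro g h u v hO
  have h1 : kap u₀ v₀ (g * h) u v = kap u₀ v₀ g (h • u) (h • v) * kap u₀ v₀ h u v := by
    simp only [kap, mul_smul]
    group
  rw [h1, cls_mul (kap_mem ((Om_smul h u v).2 hO) g) (kap_mem hO h)]

/-- On the classes of a normal subgroup `N` the universal cocycle takes values in the image of the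
intersection with `N`. -/
theorem uni_deep (hT : T.IsTree)
    (hadj : ∀ (g : H) u v, T.Adj u v → T.Adj (g • u) (g • v))
    (hinv : ∀ (g : H) u v, T.Adj u v → ¬ (g • u = v ∧ g • v = u)) {o : V}
    (P : ∀ x, T.Walk o x) (u₀ v₀ : V)
    (Φ : M H →+ Additive (Abelianization (St H u₀ v₀)))
    (hΦ : ∀ g h, Φ (br g h) = wsum (uni u₀ v₀ g) (P (h • o)))
    (N : Subgroup H) [hNn : N.Normal] (w : M N) (hw : w ∈ Z2 N) :
    ∃ n ∈ N, n ∈ St H u₀ v₀ ∧ Φ (Mmap N.subtype w) = cls u₀ v₀ n := by
  classical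
  let I : AddSubgroup (Additive (Abelianization (St H u₀ v₀))) :=
    { carrier := {y | ∃ n ∈ N, n ∈ St H u₀ v₀ ∧ y = cls u₀ v₀ n}
      zero_mem' := ⟨1, N.one_mem, Subgroup.one_mem _, ((cls_eq_zero (Subgroup.one_mem _)).2
        (Subgroup.one_mem _)).symm⟩
      add_mem' := by
        rintro _ _ ⟨n, h1, h2, rfl⟩ ⟨m, h3, h4, rfl⟩
        exact ⟨n * m, N.mul_mem h1 h3, Subgroup.mul_mem _ h2 h4, (cls_mul h2 h4).symm⟩
      neg_mem' := by
        rintro _ ⟨n, h1, h2, rfl⟩
        refine ⟨n⁻¹, N.inv_mem h1, Subgroup.inv_mem _ h2, ?_⟩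
        rw [neg_eq_iff_add_eq_zero, ← cls_mul h2 (Subgroup.inv_mem _ h2), mul_inv_cancel]
        exact (cls_eq_zero (Subgroup.one_mem _)).2 (Subgroup.one_mem _) }
  have hEC := uni_isEC (H := H) T u₀ v₀
  let π := QuotientAddGroup.mk' I
  have hEC' : IsEC T (fun g u v => π (uni (H := H) u₀ v₀ g u v)) := by
    constructor
    · intro g u v huv
      show π _ = -π _
      rw [hEC.anti g u v huv, map_neg]
    · intro g h u v huv
      show π _ = π _ + π _
      rw [hEC.coc g h u v huv, map_add]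
  have hws : ∀ (g : H) {x y : V} (p : T.Walk x y),
      π (wsum (uni u₀ v₀ g) p) = wsum (fun u v => π (uni u₀ v₀ g u v)) p := by
    intro g x y p
    induction p with
    | nil => simp [wsum]
    | cons e p ih =>
      simp only [wsum]
      rw [map_add, ih]
  have hcl : ∀ s ∈ N, ∀ u v, Om H u₀ v₀ u v → s • u = u → s • v = v →
      π (cls u₀ v₀ (kap u₀ v₀ s u v)) = 0 := by
    intro s hs u v hO hsu hsv
    have h1 : kap u₀ v₀ s u v ∈ N := by
      rw [kap, hsu, hsv]
      have := hNn.conj_mem s hs (q H u₀ v₀ u v)⁻¹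
      rwa [inv_inv] at this
    exact (QuotientAddGroup.eq_zero_iff _).2 ⟨_, h1, kap_mem hO s, rfl⟩
  have h0 := restrict hT hadj hinv hEC' P N (by
    intro s hs u v _ hsu hsv
    show π (uni u₀ v₀ s u v) = 0
    rw [uni, asym, map_sub]
    have e1 : π (if Om H u₀ v₀ u v then cls u₀ v₀ (kap u₀ v₀ s u v) else 0) = 0 := by
      split_ifs with hO
      · exact hcl s hs u v hO hsu hsv
      · exact map_zero _
    have e2 : π (if Om H u₀ v₀ v u then cls u₀ v₀ (kap u₀ v₀ s v u) else 0) = 0 := by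
      split_ifs with hO
      · exact hcl s hs v u hO hsv hsu
      · exact map_zero _
    rw [e1, e2, sub_zero]) (π.comp Φ) (by
      intro g h
      rw [AddMonoidHom.comp_apply, hΦ, hws]) w hw
  exact (QuotientAddGroup.eq_zero_iff _).1 h0

end Pool.Agent.H8.PFT
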