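import Mathlib

/-!
Groups acting on trees: a compatible family of homomorphisms on the vertex stabilisers which
agree on the edge stabilisers of a normal subgroup extends to the normal subgroup
(elementary form, used for second homology).
-/

set_option autoImplicit false

namespace Pool.Agent.H8.PFT

open SimpleGraph
open scoped commutatorElement

/-- The sum of an edge function along a walk. -/
def wsum {V D : Type*} [AddCommGroup D] {T : SimpleGraph V} (β : V → V → D) :
    ∀ {u v : V}, T.Walk u v → D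
  | _, _, .nil => 0
  | u, _, .cons (v := w) _ p => β u w + wsum β p

lemma wsum_concat {V D : Type*} [AddCommGroup D] {T : SimpleGraph V} (β : V → V → D)
    {u v w : V} (p : T.Walk u v) (h : T.Adj v w) :
    wsum β (p.concat h) = wsum β p + β v w := by
  induction p with
  | nil => simp [Walk.concat_nil, wsum]
  | cons h' p ih =>
    rw [Walk.concat_cons]
    simp only [wsum]
    rw [ih h, add_assoc]

/-- An antisymmetric function on the edges of a tree is a difference of vertex values. -/
theorem potential {V D : Type*} [AddCommGroup D] {T : SimpleGraph V} (hT : T.IsTree)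
    (β : V → V → D) (hβ : ∀ u v, T.Adj u v → β v u = -β u v) :
    ∃ B : V → D, ∀ u v, T.Adj u v → B v - B u = β u v := by
  obtain ⟨o⟩ := hT.1.nonempty
  choose P hP _ using fun v => hT.existsUnique_path o v
  refine ⟨fun v => wsum β (P v), fun u v huv => ?_⟩
  have hP' : ∀ v, (P v).IsPath := hP
  show wsum β (P v) - wsum β (P u) = β u v
  by_cases h : u ∈ (P v).support
  · rw [hT.2.path_concat (hP' u) (hP' v) huv h, wsum_concat]
    abel
  · have h2 : v ∈ (P u).support :=
      hT.2.mem_support_of_ne_mem_support_of_adj_of_isPath (hP' u) (hP' v) huv h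
    rw [hT.2.path_concat (hP' v) (hP' u) huv.symm h2, wsum_concat, hβ u v huv]
    abel

/-- Orbit representatives with witnesses. -/
theorem exists_rep (G V : Type*) [Group G] [MulAction G V] :
    ∃ (r : V → V) (k : V → G), (∀ v, k v • r v = v) ∧ ∀ (g : G) v, r (g • v) = r v := by
  let r : V → V := fun v => (Quotient.out (s := MulAction.orbitRel G V)
    (Quotient.mk (MulAction.orbitRel G V) v))
  have h1 : ∀ v, ∃ k : G, k • r v = v := by
    intro v
    have : (MulAction.orbitRel G V) (r v) v :=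
      Quotient.exact (Quotient.out_eq (Quotient.mk (MulAction.orbitRel G V) v))
    have h2 : (MulAction.orbitRel G V) v (r v) := Setoid.symm' _ this
    rw [MulAction.orbitRel_apply] at h2
    exact h2
  choose k hk using h1
  refine ⟨r, k, hk, fun g v => ?_⟩
  have : Quotient.mk (MulAction.orbitRel G V) (g • v) = Quotient.mk (MulAction.orbitRel G V) v := by
    apply Quotient.sound
    show (MulAction.orbitRel G V) (g • v) v
    rw [MulAction.orbitRel_apply]
    exact ⟨g, rfl⟩
  show Quotient.out (s := MulAction.orbitRel G V) _ = Quotient.out (s := MulAction.orbitRel G V) _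
  rw [this]

/-- Representatives for the orbits of ordered pairs, compatible with the flip on the pairs which
are not flipped by the group. -/
theorem exists_pairRep (N V : Type*) [Group N] [MulAction N V] :
    ∃ (ρ : V × V → V × V) (n : V × V → N), (∀ p, n p • ρ p = p) ∧
      (∀ (m : N) p, ρ (m • p) = ρ p) ∧
      (∀ p : V × V, (∀ m : N, m • p ≠ p.swap) → ρ p.swap = (ρ p).swap) := by
  classical
  obtain ⟨r, k, hk, hr⟩ := exists_rep N (V × V)
  have hsw : ∀ (m : N) (p : V × V), (m • p).swap = m • p.swap := fun m p => rfl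
  let ρ : V × V → V × V := fun p => if WellOrderingRel (r p) (r p.swap) then r p
    else (r p.swap).swap
  have h1 : ∀ p, ∃ n : N, n • ρ p = p := by
    intro p
    by_cases h : WellOrderingRel (r p) (r p.swap)
    · exact ⟨k p, by simp only [ρ, if_pos h]; exact hk p⟩
    · refine ⟨k p.swap, ?_⟩
      simp only [ρ, if_neg h]
      rw [← hsw, hk, Prod.swap_swap]
  choose n hn using h1
  refine ⟨ρ, n, hn, ?_, ?_⟩
  · intro m p
    simp only [ρ]
    rw [hsw, hr, hr]
  · intro p hp
    have hne : r p ≠ r p.swap := by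
      intro he
      apply hp (k p.swap * (k p)⁻¹)
      rw [mul_smul]
      have : (k p)⁻¹ • p = r p := inv_smul_eq_iff.2 (hk p).symm
      rw [this, he, hk]
    simp only [ρ, Prod.swap_swap]
    rcases trichotomous_of WellOrderingRel (r p) (r p.swap) with h | h | h
    · have h' : ¬ WellOrderingRel (r p.swap) (r p) := fun h'' => asymm h h''
      rw [if_neg h', if_pos h]
    · exact absurd h hne
    · have h' : ¬ WellOrderingRel (r p) (r p.swap) := fun h'' => asymm h h''
      rw [if_pos h, if_neg h', Prod.swap_swap]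

/-- The sum along a walk of a difference of vertex values. -/
lemma wsum_potential {V D : Type*} [AddCommGroup D] {T : SimpleGraph V} (β : V → V → D)
    (B : V → D) (hB : ∀ u v, T.Adj u v → B v - B u = β u v) :
    ∀ {u v : V} (p : T.Walk u v), wsum β p = B v - B u := by
  intro u v p
  induction p with
  | nil => simp [wsum]
  | cons h p ih =>
    simp only [wsum]
    rw [ih, ← hB _ _ h]
    abel

/-- Additive functions on a family of subgroups `K v`, one for each vertex of a tree, which is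
equivariant under `N` and contains the stabilisers in `N`; if they agree on the centre `Z` and the
edge stabilisers in `N` are in the commutators of the intersections times `Z`, there is an additive
function on `N` with the given values on `Z`. -/
theorem core {G V D : Type*} [Group G] [AddCommGroup D] [MulAction G V] {T : SimpleGraph V}
    (hT : T.IsTree) (N : Subgroup G)
    (hadj : ∀ g ∈ N, ∀ u v, T.Adj u v → T.Adj (g • u) (g • v))
    (hinv : ∀ g ∈ N, ∀ u v, T.Adj u v → ¬ (g • u = v ∧ g • v = u))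
    (Z : Subgroup G) (hZ : ∀ z ∈ Z, ∀ g : G, z * g = g * z)
    (hZV : ∀ z ∈ Z, ∀ v : V, z • v = v) (hZN : Z ≤ N) (χ : G → D)
    (K : V → Subgroup G) (hZK : ∀ v, Z ≤ K v) (hNK : ∀ v, ∀ n ∈ N, n • v = v → n ∈ K v)
    (hKN : ∀ n ∈ N, ∀ v g, g ∈ K (n • v) → n⁻¹ * g * n ∈ K v)
    (lam : V → G → D)
    (hlam : ∀ v, ∀ g ∈ K v, ∀ h ∈ K v, lam v (g * h) = lam v g + lam v h)
    (hχ : ∀ v, ∀ z ∈ Z, lam v z = χ z)
    (hN : ∀ u v, T.Adj u v → ∀ n ∈ N, n • u = u → n • v = v →
      n ∈ ⁅K u ⊓ K v, K u ⊓ K v⁆ ⊔ Z) :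
    ∃ τ : G → D, (∀ n ∈ N, ∀ m ∈ N, τ (n * m) = τ n + τ m) ∧ ∀ z ∈ Z, τ z = χ z := by
  obtain ⟨r, k, hk, hr⟩ := exists_rep N V
  have hk' : ∀ v, (k v : G) • r v = v := hk
  have hr' : ∀ g ∈ N, ∀ v, r (g • v) = r v := fun g hg v => hr ⟨g, hg⟩ v
  let μ : V → G → D := fun v x => lam (r v) ((k v : G)⁻¹ * x * k v)
  have hKr : ∀ v, ∀ x ∈ K v, (k v : G)⁻¹ * x * k v ∈ K (r v) := by
    intro v x hx
    apply hKN _ (k v).2
    rw [hk']
    exact hx
  have hμ : ∀ v, ∀ x ∈ K v, ∀ y ∈ K v, μ v (x * y) = μ v x + μ v y := by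
    intro v x hx y hy
    have e : (k v : G)⁻¹ * (x * y) * k v = ((k v : G)⁻¹ * x * k v) * ((k v : G)⁻¹ * y * k v) := by
      group
    show lam (r v) _ = lam (r v) _ + lam (r v) _
    rw [e]
    exact hlam _ _ (hKr v x hx) _ (hKr v y hy)
  have hμZ : ∀ v, ∀ z ∈ Z, μ v z = χ z := by
    intro v z hz
    show lam (r v) _ = _
    rw [mul_assoc, hZ z hz, inv_mul_cancel_left]
    exact hχ _ z hz
  have hμ1 : ∀ v, μ v 1 = 0 := by
    intro v
    have := hμ v 1 (K v).one_mem 1 (K v).one_mem
    rw [mul_one] at this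
    exact left_eq_add.1 this
  have hμinv : ∀ v, ∀ x ∈ K v, μ v x⁻¹ = -μ v x := by
    intro v x hx
    have := hμ v x⁻¹ ((K v).inv_mem hx) x hx
    rw [inv_mul_cancel, hμ1] at this
    exact eq_neg_of_add_eq_zero_left this.symm
  have hμc : ∀ v, ∀ x ∈ K v, ∀ y ∈ K v, μ v ⁅x, y⁆ = 0 := by
    intro v x hx y hy
    have hx' := (K v).inv_mem hx
    have hy' := (K v).inv_mem hy
    rw [commutatorElement_def, hμ v _ ((K v).mul_mem ((K v).mul_mem hx hy) hx') _ hy',
      hμ v _ ((K v).mul_mem hx hy) _ hx', hμ v x hx y hy, hμinv v x hx, hμinv v y hy]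
    abel
  -- the two functions agree on the commutators
  have hagree : ∀ u v, ∀ x ∈ ⁅K u ⊓ K v, K u ⊓ K v⁆ ⊔ Z, μ u x = μ v x := by
    intro u v x hx
    let L : Subgroup G :=
      { carrier := {g | g ∈ K u ∧ g ∈ K v ∧ μ u g = μ v g}
        one_mem' := ⟨(K u).one_mem, (K v).one_mem, by rw [hμ1, hμ1]⟩
        mul_mem' := by
          rintro a b ⟨a1, a2, a3⟩ ⟨b1, b2, b3⟩
          exact ⟨(K u).mul_mem a1 b1, (K v).mul_mem a2 b2, by
            rw [hμ u a a1 b b1, hμ v a a2 b b2, a3, b3]⟩
        inv_mem' := by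
          rintro a ⟨a1, a2, a3⟩
          exact ⟨(K u).inv_mem a1, (K v).inv_mem a2, by rw [hμinv u a a1, hμinv v a a2, a3]⟩ }
    have hL : ⁅K u ⊓ K v, K u ⊓ K v⁆ ⊔ Z ≤ L := by
      rw [sup_le_iff]
      constructor
      · rw [Subgroup.commutator_le]
        rintro a ⟨a1, a2⟩ b ⟨b1, b2⟩
        have hm : ∀ w, a ∈ K w → b ∈ K w → ⁅a, b⁆ ∈ K w := by
          intro w ha hb
          rw [commutatorElement_def]
          exact (K w).mul_mem ((K w).mul_mem ((K w).mul_mem ha hb) ((K w).inv_mem ha))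
            ((K w).inv_mem hb)
        exact ⟨hm u a1 b1, hm v a2 b2, by rw [hμc u a a1 b b1, hμc v a a2 b b2]⟩
      · intro z hz
        exact ⟨hZK u hz, hZK v hz, by rw [hμZ u z hz, hμZ v z hz]⟩
    exact (hL hx).2.2
  let α : G → V → D := fun g v => lam (r v) ((k (g • v) : G)⁻¹ * g * k v)
  have hαN : ∀ g ∈ N, ∀ v, α g v = lam (r v) ((k (g • v) : G)⁻¹ * g * k v) :=
    fun g hg v => rfl
  have hfix : ∀ g ∈ N, ∀ v, ((k (g • v) : G)⁻¹ * g * k v) ∈ K (r v) := by
    intro g hg v
    apply hNK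
    · exact N.mul_mem (N.mul_mem (N.inv_mem (k _).2) hg) (k _).2
    · rw [mul_smul, mul_smul, hk', inv_smul_eq_iff, ← hr' g hg v, hk']
  have hco : ∀ g ∈ N, ∀ h ∈ N, ∀ v, α (g * h) v = α g (h • v) + α h v := by
    intro g hg h hh v
    have e1 : (k ((g * h) • v) : G)⁻¹ * (g * h) * k v =
        ((k (g • h • v) : G)⁻¹ * g * k (h • v)) * ((k (h • v) : G)⁻¹ * h * k v) := by
      rw [mul_smul]; group
    rw [hαN _ (N.mul_mem hg hh), hαN g hg, hαN h hh, e1, hr' h hh v]
    apply hlam
    · have := hfix g hg (h • v)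
      rwa [hr' h hh v] at this
    · exact hfix h hh v
  have hαfix : ∀ n ∈ N, ∀ v, n • v = v → α n v = μ v n := by
    intro n hn v hv
    rw [hαN n hn, hv]
  have hαZ : ∀ z ∈ Z, ∀ v, α z v = χ z := by
    intro z hz v
    rw [hαfix z (hZN hz) v (hZV z hz v), hμZ v z hz]
  -- the two functions agree on the edge stabilisers in `N`
  have hedge : ∀ u v, T.Adj u v → ∀ n ∈ N, n • u = u → n • v = v → α n u = α n v := by
    intro u v huv n hn hnu hnv
    rw [hαfix n hn u hnu, hαfix n hn v hnv]
    exact hagree u v n (hN u v huv n hn hnu hnv)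
  -- the function on the edges
  obtain ⟨ρ, n, hn, hρ, hsw⟩ := exists_pairRep N V
  let β : V → V → D := fun u v => α (n (u, v)) (ρ (u, v)).2 - α (n (u, v)) (ρ (u, v)).1
  have hadjρ : ∀ u v, T.Adj u v → T.Adj (ρ (u, v)).1 (ρ (u, v)).2 := by
    intro u v huv
    have h1 : ρ (u, v) = (n (u, v))⁻¹ • (u, v) := by
      rw [eq_inv_smul_iff, hn]
    rw [h1]
    exact hadj _ ((n (u, v))⁻¹).2 _ _ huv
  -- independence of the witness
  have hind : ∀ u v, T.Adj u v → ∀ m : N, m • ρ (u, v) = (u, v) →
      α m (ρ (u, v)).2 - α m (ρ (u, v)).1 = β u v := by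
    intro u v huv m hm
    have h1 : ((n (u, v))⁻¹ * m) • ρ (u, v) = ρ (u, v) := by
      rw [mul_smul, hm, inv_smul_eq_iff, hn]
    have h1a : (((n (u, v))⁻¹ * m : N) : G) • (ρ (u, v)).1 = (ρ (u, v)).1 := congrArg Prod.fst h1
    have h1b : (((n (u, v))⁻¹ * m : N) : G) • (ρ (u, v)).2 = (ρ (u, v)).2 := congrArg Prod.snd h1
    have h2 : (m : G) = (n (u, v) : G) * (((n (u, v))⁻¹ * m : N) : G) := by
      push_cast
      group
    have h3 := hedge _ _ (hadjρ u v huv) _ ((n (u, v))⁻¹ * m).2 h1a h1b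
    rw [h2, hco _ (n (u, v)).2 _ ((n (u, v))⁻¹ * m).2, hco _ (n (u, v)).2 _ ((n (u, v))⁻¹ * m).2,
      h1a, h1b, h3]
    show _ = α (n (u, v)) (ρ (u, v)).2 - α (n (u, v)) (ρ (u, v)).1
    abel
  have hβ : ∀ u v, T.Adj u v → β v u = -β u v := by
    intro u v huv
    have h1 : ρ (v, u) = (ρ (u, v)).swap := by
      have := hsw (u, v) (by
        intro m hm
        exact hinv m m.2 u v huv ⟨congrArg Prod.fst hm, congrArg Prod.snd hm⟩)
      exact this
    have h2 : n (v, u) • ρ (u, v) = (u, v) := by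
      have := hn (v, u)
      rw [h1] at this
      exact congrArg Prod.swap this
    have h3 := hind u v huv (n (v, u)) h2
    show α (n (v, u)) (ρ (v, u)).2 - α (n (v, u)) (ρ (v, u)).1 = _
    rw [h1, ← h3, Prod.snd_swap, Prod.fst_swap]
    abel
  have hβm : ∀ u v, T.Adj u v → ∀ m ∈ N, β (m • u) (m • v) = β u v + (α m v - α m u) := by
    intro u v huv m hm
    let m' : N := ⟨m, hm⟩
    have h1 : ρ (m • u, m • v) = ρ (u, v) := hρ m' (u, v)
    have h2 : (m' * n (u, v)) • ρ (m • u, m • v) = (m • u, m • v) := by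
      rw [h1, mul_smul, hn]
      rfl
    have h3 := hind (m • u) (m • v) (hadj m hm u v huv) (m' * n (u, v)) h2
    rw [← h3, h1]
    have h4 : (((m' * n (u, v) : N)) : G) = m * (n (u, v) : G) := rfl
    have h5a : (n (u, v) : G) • (ρ (u, v)).1 = u := congrArg Prod.fst (hn (u, v))
    have h5b : (n (u, v) : G) • (ρ (u, v)).2 = v := congrArg Prod.snd (hn (u, v))
    rw [h4, hco m hm _ (n (u, v)).2, hco m hm _ (n (u, v)).2, h5a, h5b]
    show _ = α (n (u, v)) (ρ (u, v)).2 - α (n (u, v)) (ρ (u, v)).1 + _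
    abel
  obtain ⟨B, hB⟩ := potential hT β hβ
  let F : G → V → D := fun g v => α g v - B (g • v) + B v
  have hF : ∀ m ∈ N, ∀ u v, F m u = F m v := by
    intro m hm u v
    obtain ⟨p⟩ := hT.1.preconnected u v
    induction p with
    | nil => rfl
    | cons h p ih =>
      rw [← ih]
      rename_i u w v
      have h1 := hB (m • u) (m • w) (hadj m hm u w h)
      rw [hβm u w h m hm, ← hB u w h] at h1
      show α m u - B (m • u) + B u = α m w - B (m • w) + B w
      have h2 : α m w - B (m • w) + B w = α m u - B (m • u) + B u +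
          ((B w - B u + (α m w - α m u)) - (B (m • w) - B (m • u))) := by abel
      rw [h2, h1, sub_self, add_zero]
  obtain ⟨o⟩ := hT.1.nonempty
  refine ⟨fun g => F g o, fun a ha b hb => ?_, fun z hz => ?_⟩
  · show F (a * b) o = F a o + F b o
    rw [hF a ha o (b • o)]
    show α (a * b) o - B ((a * b) • o) + B o = α a (b • o) - B (a • b • o) + B (b • o) +
      (α b o - B (b • o) + B o)
    rw [hco a ha b hb, mul_smul]
    abel
  · show α z o - B (z • o) + B o = χ z
    rw [hαZ z hz, hZV z hz]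
    abel

end Pool.Agent.H8.PFT
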