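import Pool.Agent.H3.HG.Defs
import Pool.Agent.H8.PFT.Core

/-!
Second homology of a group acting on a tree, on the chain level: if the homology of a normal
subgroup `N` maps onto the homology of `H` and `N` meets the edge stabilisers in commutators, the
homology of `H` comes from the vertex stabilisers.
-/

set_option autoImplicit false

namespace Pool.Agent.H8.PFT

open Pool.Agent.H3.HG Finsupp SimpleGraph
open scoped commutatorElement

/-- The injectivity of `ℚ/ℤ`: a homomorphism which kills the kernel of `f` factors over `f`. -/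
theorem factor {A B : Type*} [AddCommGroup A] [AddCommGroup B] (f : A →+ B)
    (χ : A →+ AddCircle (1 : ℚ)) (h : ∀ a, f a = 0 → χ a = 0) :
    ∃ b : B →+ AddCircle (1 : ℚ), ∀ a, χ a = b (f a) := by
  let g : (A ⧸ f.ker) →+ B := QuotientAddGroup.kerLift f
  have hg : Function.Injective g := QuotientAddGroup.kerLift_injective f
  have hle : f.ker ≤ χ.ker := fun a ha => h a ha
  let ψ : (A ⧸ f.ker) →+ AddCircle (1 : ℚ) := QuotientAddGroup.lift f.ker χ hle
  obtain ⟨b, hb⟩ := CharacterModule.dual_surjective_of_injective (R := ℤ)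
    g.toIntLinearMap hg (ψ : CharacterModule (A ⧸ f.ker))
  refine ⟨b, fun a => ?_⟩
  have h1 := DFunLike.congr_fun hb (QuotientAddGroup.mk a : A ⧸ f.ker)
  exact h1.symm

variable {H : Type} [Group H]

/-- A character of `M K` which vanishes on the cycles, in terms of a function on `K`. -/
theorem coboundary {K : Subgroup H} (χ : M H →+ AddCircle (1 : ℚ))
    (h : ∀ m ∈ Z2 K, χ (Mmap K.subtype m) = 0) :
    ∃ b : H → AddCircle (1 : ℚ), ∀ x ∈ K, ∀ y ∈ K, χ (br x y) = b x + b y - b (x * y) := by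
  classical
  obtain ⟨b, hb⟩ := factor (dbar K) (χ.comp (Mmap K.subtype)) (fun a ha => h a ha)
  refine ⟨fun x => if hx : x ∈ K then b (single ⟨x, hx⟩ 1) else 0, fun x hx y hy => ?_⟩
  have h1 := hb (br ⟨x, hx⟩ ⟨y, hy⟩)
  rw [AddMonoidHom.comp_apply, Mmap_br, dbar_br, map_add, map_sub] at h1
  have h2 : χ (br x y) = b (single ⟨y, hy⟩ 1) - b (single ((⟨x, hx⟩ : K) * ⟨y, hy⟩) 1) +
    b (single ⟨x, hx⟩ 1) := h1
  beta_reduce
  rw [h2, dif_pos hx, dif_pos hy, dif_pos (K.mul_mem hx hy)]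
  have h3 : ((⟨x, hx⟩ : K) * ⟨y, hy⟩) = ⟨x * y, K.mul_mem hx hy⟩ := rfl
  rw [h3]
  abel

/-- A homomorphism on `M K` given by a function on `K` on the symbols vanishes on the cycles. -/
theorem cycles_kill {K : Type} [Group K] {D : Type*} [AddCommGroup D] (Φ : M K →+ D) (t : K → D)
    (h : ∀ x y, Φ (br x y) = t x + t y - t (x * y)) (z : M K) (hz : z ∈ Z2 K) : Φ z = 0 := by
  let t' : (K →₀ ℤ) →+ D := Finsupp.liftAddHom fun g => (zmultiplesHom D (t g) : ℤ →+ D)
  have ht : ∀ g, t' (single g 1) = t g := by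
    intro g
    simp [t']
  have hcomp : Φ = t'.comp (dbar K) := by
    apply M_hom_ext
    intro g k
    rw [AddMonoidHom.comp_apply, dbar_br, map_add, map_sub, h]
    rw [ht, ht, ht]
    abel
  have h2 : dbar K z = 0 := hz
  rw [hcomp, AddMonoidHom.comp_apply, h2, map_zero]

/-- The relative form: the classes of `N` come from the groups `K v`. -/
theorem vertices {V : Type*} [MulAction H V] {T : SimpleGraph V} (hT : T.IsTree) (N : Subgroup H)
    (hadj : ∀ g ∈ N, ∀ u v, T.Adj u v → T.Adj (g • u) (g • v))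
    (hinv : ∀ g ∈ N, ∀ u v, T.Adj u v → ¬ (g • u = v ∧ g • v = u))
    (K : V → Subgroup H) (hNK : ∀ v, ∀ n ∈ N, n • v = v → n ∈ K v)
    (hKN : ∀ n ∈ N, ∀ v g, g ∈ K (n • v) → n⁻¹ * g * n ∈ K v)
    (hN : ∀ u v, T.Adj u v → ∀ n ∈ N, n • u = u → n • v = v → n ∈ ⁅K u ⊓ K v, K u ⊓ K v⁆)
    (w : M N) (hw : w ∈ Z2 N) :
    Mmap N.subtype w ∈ ⨆ v : V, (Z2 (K v)).map (Mmap (K v).subtype) := by
  classical
  by_contra hcon
  set S : AddSubgroup (M H) := ⨆ v : V, (Z2 (K v)).map (Mmap (K v).subtype) with hS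
  have hne : (QuotientAddGroup.mk (Mmap N.subtype w) : M H ⧸ S) ≠ 0 := by
    rw [Ne, QuotientAddGroup.eq_zero_iff]
    exact hcon
  have hex : ∃ χ : M H →+ AddCircle (1 : ℚ), (∀ m ∈ S, χ m = 0) ∧ χ (Mmap N.subtype w) ≠ 0 := by
    obtain ⟨c, hc⟩ := CharacterModule.exists_character_apply_ne_zero_of_ne_zero hne
    refine ⟨(c : (M H ⧸ S) →+ AddCircle (1 : ℚ)).comp (QuotientAddGroup.mk' S), ?_, hc⟩
    intro m hm
    show c (QuotientAddGroup.mk m) = 0
    rw [(QuotientAddGroup.eq_zero_iff m).2 hm, map_zero]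
  obtain ⟨χ, hχS, hχz⟩ := hex
  have hb : ∀ v : V, ∃ b : H → AddCircle (1 : ℚ), ∀ x ∈ K v,
      ∀ y ∈ K v, χ (br x y) = b x + b y - b (x * y) := by
    intro v
    apply coboundary
    intro m hm
    apply hχS
    exact AddSubgroup.mem_iSup_of_mem v ⟨m, hm, rfl⟩
  choose b hb using hb
  let _ : MulAction (E H) V := MulAction.compHom V (E.pr : E H →* H)
  have hbr1 : ∀ v, χ (br 1 1) = b v 1 := by
    intro v
    have := hb v 1 (Subgroup.one_mem _) 1 (Subgroup.one_mem _)
    rw [this, mul_one]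
    abel
  obtain ⟨τ, hτ, hτχ⟩ := core (G := E H) (V := V) (D := AddCircle (1 : ℚ)) hT
    (N.comap E.pr)
    (fun x hx u v h => hadj x.g hx u v h) (fun x hx u v h => hinv x.g hx u v h)
    (E.inc : Multiplicative (M H) →* E H).range
    (by rintro _ ⟨m, rfl⟩ g; exact E.inc_comm m g)
    (by rintro _ ⟨m, rfl⟩ v; exact one_smul H v)
    (by rintro _ ⟨m, rfl⟩; exact N.one_mem)
    (fun x => χ (x.m + br 1 1)) (fun v => (K v).comap E.pr)
    (by rintro v _ ⟨m, rfl⟩; exact (K v).one_mem)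
    (fun v n hn hv => hNK v n.g hn hv)
    (fun n hn v g hg => hKN n.g hn v g.g hg)
    (fun v x => χ x.m + b v x.g)
    (by
      intro v g hg h hh
      show χ (g.m + h.m + br g.g h.g) + b v (g.g * h.g) = _
      rw [map_add, map_add, hb v g.g hg h.g hh]
      abel)
    (by
      rintro v _ ⟨m, rfl⟩
      show χ (E.inc m).m + b v 1 = χ ((E.inc m).m + br 1 1)
      rw [map_add, hbr1 v])
    (by
      intro u v huv n hn hnu hnv
      have hcm : ((K u).comap (E.pr : E H →* H)) ⊓ ((K v).comap E.pr) =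
          (K u ⊓ K v).comap E.pr := rfl
      rw [hcm]
      have h1 : n.g ∈ ⁅K u ⊓ K v, K u ⊓ K v⁆ := hN u v huv n.g hn hnu hnv
      have h2 : (⁅(K u ⊓ K v).comap (E.pr : E H →* H), (K u ⊓ K v).comap E.pr⁆).map E.pr =
          ⁅K u ⊓ K v, K u ⊓ K v⁆ := by
        rw [Subgroup.map_commutator, Subgroup.map_comap_eq_self_of_surjective E.pr_surjective]
      rw [← h2] at h1
      obtain ⟨y, hy, hyn⟩ := h1
      have h3 : (y⁻¹ * n).g = 1 := by
        rw [E.mul_g, E.inv_g]
        have : y.g = n.g := hyn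
        rw [this, inv_mul_cancel]
      have h4 : y⁻¹ * n ∈ (E.inc : Multiplicative (M H) →* E H).range :=
        ⟨_, (E.eq_inc_of_g _ h3).symm⟩
      have h5 : n = y * (y⁻¹ * n) := by group
      rw [h5]
      exact Subgroup.mul_mem_sup hy h4)
  -- `χ` is a coboundary on `N`
  let s : N → E H := fun g => ⟨0, g⟩
  have hmul : ∀ g h : N, s g * s h = E.inc (Multiplicative.ofAdd (br (g : H) (h : H))) *
      s (g * h) := by
    intro g h
    ext
    · simp only [s, E.mul_m, E.inc_m, E.inc_g, toAdd_ofAdd, br_one_left]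
      abel
    · simp [s]
  have hNs : ∀ g : N, s g ∈ N.comap (E.pr : E H →* H) := fun g => g.2
  have hNi : ∀ m, E.inc m ∈ N.comap (E.pr : E H →* H) := fun m => N.one_mem
  refine hχz (cycles_kill (χ.comp (Mmap N.subtype)) (fun g => τ (s g)) ?_ w hw)
  intro g k
  rw [AddMonoidHom.comp_apply, Mmap_br]
  have h1 := hτ _ (hNs g) _ (hNs k)
  rw [hmul, hτ _ (hNi _) _ (hNs _), hτχ _ ⟨_, rfl⟩] at h1
  have h2 : (E.inc (Multiplicative.ofAdd (br (g : H) (k : H)))).m + br 1 1 =
      br (g : H) (k : H) := by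
    rw [E.inc_m, toAdd_ofAdd, sub_add_cancel]
  rw [h2] at h1
  exact eq_sub_of_add_eq h1

end Pool.Agent.H8.PFT
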