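import Pool.Agent.H8.PFT.All

/-!
Hierarchies: if a group in the lower central genus is built from subgroups without second homology
by actions on trees with abelian edge stabilisers, its second homology vanishes.
-/

set_option autoImplicit false

namespace Pool.Agent.H8.PFT

open Pool.Agent.H3.HG CategoryTheory
open scoped commutatorElement

/-- The classes of `A` die in `B`. -/
def Kills {A B : Type} [Group A] [Group B] (f : A →* B) : Prop := ∀ w ∈ Z2 A, Mmap f w = 0

lemma Mmap_comp_apply {A B C : Type} [Group A] [Group B] [Group C] (f : A →* B) (g : B →* C)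
    (m : M A) : Mmap (g.comp f) m = Mmap g (Mmap f m) := by
  have h : Mmap (g.comp f) = (Mmap g).comp (Mmap f) := by
    apply M_hom_ext
    intro x y
    rw [AddMonoidHom.comp_apply, Mmap_br, Mmap_br, Mmap_br]
    rfl
  rw [h]
  rfl

lemma dbar_Mmap {A B : Type} [Group A] [Group B] (f : A →* B) (m : M A) :
    dbar B (Mmap f m) = Finsupp.mapDomain f (dbar A m) := by
  have h : (dbar B).comp (Mmap f) = (Finsupp.mapDomain.addMonoidHom f).comp (dbar A) := by
    apply M_hom_ext
    intro x y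
    rw [AddMonoidHom.comp_apply, AddMonoidHom.comp_apply, Mmap_br, dbar_br, dbar_br]
    simp only [map_add, map_sub, Finsupp.mapDomain.addMonoidHom_apply, Finsupp.mapDomain_single,
      map_mul]
  exact DFunLike.congr_fun h m

lemma Mmap_mem_Z2 {A B : Type} [Group A] [Group B] (f : A →* B) {m : M A} (hm : m ∈ Z2 A) :
    Mmap f m ∈ Z2 B := by
  have h1 : dbar A m = 0 := hm
  show dbar B (Mmap f m) = 0
  rw [dbar_Mmap, h1, Finsupp.mapDomain_zero]

lemma Kills.comp {A B A' B' : Type} [Group A] [Group B] [Group A'] [Group B'] {f : A →* B}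
    (hf : Kills f) (a : A' →* A) (b : B →* B') (f' : A' →* B') (h : ∀ x, f' x = b (f (a x))) :
    Kills f' := by
  intro w hw
  have h1 : f' = b.comp (f.comp a) := MonoidHom.ext h
  rw [h1, Mmap_comp_apply, Mmap_comp_apply, hf _ (Mmap_mem_Z2 a hw), map_zero]

variable {H : Type} [Group H]

/-- The second homology of `N ∩ K` dies in that of `K`. -/
def Dies (N K : Subgroup H) : Prop := Kills (N.subgroupOf K).subtype

lemma Dies.mono {N N' K : Subgroup H} (h : Dies N K) (hle : N' ≤ N) : Dies N' K := by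
  refine Kills.comp h (Subgroup.inclusion (Subgroup.comap_mono hle)) (MonoidHom.id _) _ ?_
  intro x
  rfl

lemma Dies.conj {N L L' : Subgroup H} (hN : N.Normal) (h : Dies N L) (g : H)
    (h1 : ∀ x ∈ L', g⁻¹ * x * g ∈ L) (h2 : ∀ x ∈ L, g * x * g⁻¹ ∈ L') : Dies N L' := by
  let a : N.subgroupOf L' →* N.subgroupOf L := MonoidHom.mk'
    (fun x => ⟨⟨g⁻¹ * (x : L') * g, h1 _ (x : L').2⟩, by
      have h3 : ((x : L') : H) ∈ N := x.2
      have h4 := hN.conj_mem _ h3 g⁻¹
      rw [inv_inv] at h4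
      exact h4⟩) (by
      intro x y
      apply Subtype.ext
      apply Subtype.ext
      show g⁻¹ * (((x : L') : H) * ((y : L') : H)) * g =
        (g⁻¹ * ((x : L') : H) * g) * (g⁻¹ * ((y : L') : H) * g)
      group)
  let b : L →* L' := MonoidHom.mk' (fun x => ⟨g * (x : H) * g⁻¹, h2 _ x.2⟩) (by
      intro x y
      apply Subtype.ext
      show g * ((x : H) * (y : H)) * g⁻¹ = (g * (x : H) * g⁻¹) * (g * (y : H) * g⁻¹)
      group)
  refine Kills.comp h a b _ ?_
  intro x
  apply Subtype.ext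
  show ((x : L') : H) = g * (g⁻¹ * ((x : L') : H) * g) * g⁻¹
  group

section step

variable {K : Subgroup H} {V : Type*} [MulAction K V] {T : SimpleGraph V}

theorem step_abelian (hT : T.IsTree) (hadj : ∀ (g : K) u v, T.Adj u v → T.Adj (g • u) (g • v))
    (hinv : ∀ (g : K) u v, T.Adj u v → ¬ (g • u = v ∧ g • v = u)) (N : Subgroup H)
    (hN : ∀ u v, T.Adj u v → ∀ x : K, (x : H) ∈ N → x • u = u → x • v = v → x = 1)
    (hv : ∀ v : V, Dies N ((MulAction.stabilizer K v).map K.subtype)) : Dies N K := by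
  intro w hw
  have h1 := vertices hT (N.subgroupOf K) (fun g _ => hadj g) (fun g _ => hinv g)
    (fun v : V => N.subgroupOf K ⊓ MulAction.stabilizer K v)
    (fun v n hn hnv => ⟨hn, hnv⟩)
    (by
      rintro n hn v g ⟨hg1, hg2⟩
      refine ⟨Subgroup.mul_mem _ (Subgroup.mul_mem _ (Subgroup.inv_mem _ hn) hg1) hn, ?_⟩
      show (n⁻¹ * g * n) • v = v
      have hg2' : g • n • v = n • v := hg2
      rw [mul_smul, mul_smul, hg2', inv_smul_smul])
    (by
      intro u v huv n hn hnu hnv
      rw [hN u v huv n hn hnu hnv]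
      exact Subgroup.one_mem _) w hw
  have h2 : (⨆ v : V, (Z2 (N.subgroupOf K ⊓ MulAction.stabilizer K v : Subgroup K)).map
      (Mmap (N.subgroupOf K ⊓ MulAction.stabilizer K v : Subgroup K).subtype)) = ⊥ := by
    rw [iSup_eq_bot]
    intro v
    rw [eq_bot_iff]
    rintro _ ⟨m, hm, rfl⟩
    rw [AddSubgroup.mem_bot]
    let L : Subgroup H := (MulAction.stabilizer K v).map K.subtype
    have hLK : L ≤ K := by
      rintro _ ⟨x, _, rfl⟩
      exact x.2
    let a : (N.subgroupOf K ⊓ MulAction.stabilizer K v : Subgroup K) →* N.subgroupOf L :=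
      MonoidHom.mk' (fun x => ⟨⟨((x : K) : H), ⟨(x : K), x.2.2, rfl⟩⟩, x.2.1⟩) (by
        intro x y
        rfl)
    exact Kills.comp (hv v) a (Subgroup.inclusion hLK) _ (fun x => rfl) m hm
  rw [h2, AddSubgroup.mem_bot] at h1
  exact h1

theorem step_small (hT : T.IsTree) (hadj : ∀ (g : K) u v, T.Adj u v → T.Adj (g • u) (g • v))
    (hinv : ∀ (g : K) u v, T.Adj u v → ¬ (g • u = v ∧ g • v = u)) (N : Subgroup H)
    (hN : ∀ u v, T.Adj u v → ∀ x : K, (x : H) ∈ N → x • u = u → x • v = v →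
      x ∈ ⁅St K u v, St K u v⁆)
    (hv : ∀ v : V, ∀ m ∈ Z2 (MulAction.stabilizer K v), m = 0) : Dies N K := by
  intro w hw
  have h1 := vertices hT (N.subgroupOf K) (fun g _ => hadj g) (fun g _ => hinv g)
    (fun v : V => MulAction.stabilizer K v) (fun v n hn hnv => hnv)
    (by
      intro n hn v g hg
      show (n⁻¹ * g * n) • v = v
      have hg2' : g • n • v = n • v := hg
      rw [mul_smul, mul_smul, hg2', inv_smul_smul])
    (fun u v huv n hn hnu hnv => hN u v huv n hn hnu hnv) w hw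
  have h2 : (⨆ v : V, (Z2 (MulAction.stabilizer K v)).map
      (Mmap (MulAction.stabilizer K v).subtype)) = ⊥ := by
    rw [iSup_eq_bot]
    intro v
    rw [eq_bot_iff]
    rintro _ ⟨m, hm, rfl⟩
    rw [AddSubgroup.mem_bot, hv v m hm, map_zero]
  rw [h2, AddSubgroup.mem_bot] at h1
  exact h1

end step

/-- Normal with nilpotent quotient. -/
def NQ (N : Subgroup H) : Prop :=
  N.Normal ∧ ∃ n, (⊤ : Subgroup H).lowerCentralSeries n ≤ N

lemma NQ.inf {N N' : Subgroup H} (h : NQ N) (h' : NQ N') : NQ (N ⊓ N') := by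
  obtain ⟨h1, n, hn⟩ := h
  obtain ⟨h1', n', hn'⟩ := h'
  refine ⟨inferInstance, max n n', le_inf ?_ ?_⟩
  · exact (Subgroup.lowerCentralSeries_antitone _ (le_max_left _ _)).trans hn
  · exact (Subgroup.lowerCentralSeries_antitone _ (le_max_right _ _)).trans hn'

/-- The subgroups allowed as edge stabilisers. -/
theorem exists_NQ (hR : ∀ g : H, g ≠ 1 → ∃ N : Subgroup H, Adm N ∧ g ∉ N) (C : Subgroup H)
    (hC : (C.FG ∧ ∀ x ∈ C, ∀ y ∈ C, x * y = y * x) ∨
      ∃ a ∈ C, ∃ b ∈ C, C ≤ Subgroup.closure {a, b} ⊔ ⁅C, C⁆) :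
    ∃ N : Subgroup H, NQ N ∧ N ⊓ C ≤ ⁅C, C⁆ := by
  by_cases hab : ∀ x ∈ C, ∀ y ∈ C, x * y = y * x
  · have hfg : C.FG := by
      rcases hC with h | ⟨a, ha, b, hb, h⟩
      · exact h.1
      · have hbot : ⁅C, C⁆ = ⊥ := by
          rw [eq_bot_iff, Subgroup.commutator_le]
          intro a ha b hb
          rw [Subgroup.mem_bot, commutatorElement_eq_one_iff_mul_comm]
          exact hab a ha b hb
        rw [hbot, sup_bot_eq] at h
        have h2 : C = Subgroup.closure {a, b} := by
          apply le_antisymm h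
          rw [Subgroup.closure_le]
          rintro z (rfl | hz)
          · exact ha
          · rw [Set.mem_singleton_iff.1 hz]; exact hb
        rw [h2]
        classical
        exact ⟨({a, b} : Finset H), by rw [Finset.coe_insert, Finset.coe_singleton]⟩
    obtain ⟨N, hN, h1⟩ := adm_abelian hR C hfg hab
    exact ⟨N, ⟨hN.normal, hN.nil⟩, by rw [h1]; exact bot_le⟩
  · have hC' : ∃ a ∈ C, ∃ b ∈ C, C ≤ Subgroup.closure {a, b} ⊔ ⁅C, C⁆ := by
      rcases hC with h | h
      · exact absurd h.2 hab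
      · exact h
    have hab' : ∃ x ∈ C, ∃ y ∈ C, ⁅x, y⁆ ≠ 1 := by
      by_contra hcon
      apply hab
      intro x hx y hy
      by_contra hxy
      apply hcon
      refine ⟨x, hx, y, hy, fun h => hxy ?_⟩
      exact commutatorElement_eq_one_iff_mul_comm.1 h
    obtain ⟨N, hN, hle⟩ := adm_pair hR C hab' hC'
    exact ⟨N, ⟨hN.normal, hN.nil⟩, hle⟩

end Pool.Agent.H8.PFT
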