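import Pool.Agent.H8.PFT.Hier

/-!
Hierarchies, second part: uniform choice of the normal subgroup for finitely many orbits of edges.
-/

set_option autoImplicit false

namespace Pool.Agent.H8.PFT

open Pool.Agent.H3.HG CategoryTheory
open scoped commutatorElement

variable {H : Type} [Group H]

lemma NQ.top : NQ (⊤ : Subgroup H) := ⟨inferInstance, 0, le_top⟩

lemma NQ_unif {ι : Type*} (P : ι → Subgroup H → Prop)
    (hmono : ∀ i N N', N' ≤ N → P i N → P i N') (s : Finset ι)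
    (h : ∀ i ∈ s, ∃ N, NQ N ∧ P i N) : ∃ N, NQ N ∧ ∀ i ∈ s, P i N := by
  classical
  induction s using Finset.induction_on with
  | empty => exact ⟨⊤, NQ.top, fun i hi => absurd hi (Finset.notMem_empty i)⟩
  | insert a s ha ih =>
    obtain ⟨N, hN, h1⟩ := ih (fun i hi => h i (Finset.mem_insert_of_mem hi))
    obtain ⟨N', hN', h2⟩ := h a (Finset.mem_insert_self a s)
    refine ⟨N ⊓ N', hN.inf hN', fun i hi => ?_⟩
    rcases Finset.mem_insert.1 hi with rfl | hi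
    · exact hmono _ _ _ inf_le_right h2
    · exact hmono _ _ _ inf_le_left (h1 i hi)

lemma Z2_zero {K : Type} [Group K] (h : Subsingleton (HH K)) : ∀ m ∈ Z2 K, m = 0 := by
  obtain ⟨J, -⟩ := H57.HG.pf_API
  intro m hm
  have h1 : (⟨m, hm⟩ : Z2 K) = 0 := (J K).symm.injective (Subsingleton.elim _ _)
  exact congrArg Subtype.val h1

lemma dies_zero (N K : Subgroup H) (h : Subsingleton (HH K)) : Dies N K := by
  intro w hw
  exact Z2_zero h _ (Mmap_mem_Z2 _ hw)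

/-- Nilpotent with finitely generated centre. -/
def NilC (C : Type) [Group C] : Prop := Group.IsNilpotent C ∧ (Subgroup.center C).FG

/-- Nilpotent subgroups with finitely generated centre embed in nilpotent quotients. -/
theorem nq_nil (hR : ∀ g : H, g ≠ 1 → ∃ N : Subgroup H, Adm N ∧ g ∉ N) {C : Type} [Group C]
    (f : C →* H) (hf : Function.Injective f) (hC : NilC C) :
    ∃ N : Subgroup H, NQ N ∧ ∀ x : C, f x ∈ N → x = 1 := by
  classical
  obtain ⟨hn, S, hS⟩ := hC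
  obtain ⟨N, hN, h1⟩ := adm_abelian hR ((Subgroup.center C).map f)
    ⟨S.image f, by rw [Finset.coe_image, ← MonoidHom.map_closure, hS]⟩ (by
      rintro _ ⟨x, hx, rfl⟩ _ ⟨y, hy, rfl⟩
      rw [← map_mul, ← map_mul, (Subgroup.mem_center_iff.1 hx y)])
  refine ⟨N, ⟨hN.normal, hN.nil⟩, ?_⟩
  have hNn := hN.normal
  have h2 : ∀ x : C, f x ∈ N → x ∈ Subgroup.center C → x = 1 := by
    intro x hx hxc
    have h3 : f x ∈ N ⊓ (Subgroup.center C).map f := ⟨hx, ⟨x, hxc, rfl⟩⟩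
    rw [h1, Subgroup.mem_bot] at h3
    exact hf (h3.trans (map_one f).symm)
  have h4 : ∀ n : ℕ, ∀ x : C, f x ∈ N → x ∈ Subgroup.upperCentralSeries C n → x = 1 := by
    intro n
    induction n with
    | zero =>
      intro x _ hx
      rw [Subgroup.upperCentralSeries_zero] at hx
      exact Subgroup.mem_bot.1 hx
    | succ n ih =>
      intro x hx hxn
      rw [Subgroup.mem_upperCentralSeries_succ_iff] at hxn
      apply h2 x hx
      rw [Subgroup.mem_center_iff]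
      intro y
      have h5 : ⁅x, y⁆ = 1 := by
        apply ih _ _ (hxn y)
        have h6 : f ⁅x, y⁆ = f x * (f y * (f x)⁻¹ * (f y)⁻¹) := by
          rw [map_commutatorElement, commutatorElement_def]
          group
        rw [h6]
        exact N.mul_mem hx (hNn.conj_mem _ (N.inv_mem hx) _)
      exact (commutatorElement_eq_one_iff_mul_comm.1 h5).symm
  obtain ⟨n, hn'⟩ := Group.IsNilpotent.nilpotent C
  intro x hx
  exact h4 n x hx (by rw [hn']; trivial)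

lemma locFree_of_bot {K : Type} [Group K] (h : ∀ x : K, x = 1) : Subsingleton (HH K) := by
  apply locFree_subsingleton
  intro L _
  have : Unique L := ⟨⟨1⟩, fun a => Subtype.ext (h _)⟩
  exact IsFreeGroup.ofMulEquiv (MulEquiv.ofUnique (M := FreeGroup Empty) (N := L))

/-- Nilpotent subgroups with finitely generated centre. -/
theorem dies_nil (hR : ∀ g : H, g ≠ 1 → ∃ N : Subgroup H, Adm N ∧ g ∉ N) (K : Subgroup H)
    (hK : NilC K) : ∃ N, NQ N ∧ Dies N K := by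
  obtain ⟨N, hN, h1⟩ := nq_nil hR K.subtype K.subtype_injective hK
  refine ⟨N, hN, fun w hw => ?_⟩
  have h2 : ∀ x : N.subgroupOf K, x = 1 := fun x => Subtype.ext (h1 x x.2)
  rw [Z2_zero (locFree_of_bot h2) w hw, map_zero]

section orbits

variable {K : Subgroup H} {V : Type} [MulAction K V] {T : SimpleGraph V}

lemma vert_orbits (hT : T.IsTree) (E : Finset (V × V))
    (hE : ∀ u v, T.Adj u v → ∃ g : K, (g • u, g • v) ∈ E) :
    ∃ F : Finset V, ∀ v, ∃ g : K, g • v ∈ F := by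
  classical
  obtain ⟨v0⟩ := hT.connected.nonempty
  refine ⟨insert v0 (E.image Prod.fst), fun v => ?_⟩
  by_cases hv : v = v0
  · exact ⟨1, by rw [one_smul, hv]; exact Finset.mem_insert_self _ _⟩
  · obtain ⟨p⟩ := hT.connected.preconnected v v0
    cases p with
    | nil => exact absurd rfl hv
    | cons hadj _ =>
      obtain ⟨g, hg⟩ := hE _ _ hadj
      exact ⟨g, Finset.mem_insert_of_mem (Finset.mem_image.2 ⟨_, hg, rfl⟩)⟩

lemma St_conj (g : K) (u v : V) {x : K} (hx : x ∈ ⁅St K (g • u) (g • v), St K (g • u) (g • v)⁆) :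
    g⁻¹ * x * g ∈ ⁅St K u v, St K u v⁆ := by
  have h1 : (St K (g • u) (g • v)).map (MulAut.conj g⁻¹).toMonoidHom ≤ St K u v := by
    rintro _ ⟨y, ⟨hy1, hy2⟩, rfl⟩
    have hy1' : y • g • u = g • u := hy1
    have hy2' : y • g • v = g • v := hy2
    constructor
    · show (g⁻¹ * y * g⁻¹⁻¹) • u = u
      rw [inv_inv, mul_smul, mul_smul, hy1', inv_smul_smul]
    · show (g⁻¹ * y * g⁻¹⁻¹) • v = v
      rw [inv_inv, mul_smul, mul_smul, hy2', inv_smul_smul]
  have h2 : (⁅St K (g • u) (g • v), St K (g • u) (g • v)⁆).map (MulAut.conj g⁻¹).toMonoidHom ≤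
      ⁅St K u v, St K u v⁆ := by
    rw [Subgroup.map_commutator]
    exact Subgroup.commutator_mono h1 h1
  have h3 := h2 ⟨x, hx, rfl⟩
  have h4 : (MulAut.conj g⁻¹).toMonoidHom x = g⁻¹ * x * g := by
    show g⁻¹ * x * g⁻¹⁻¹ = _
    rw [inv_inv]
  rw [h4] at h3
  exact h3

/-- The condition on the edges follows from that on representatives of the orbits. -/
lemma edges_of_reps {N : Subgroup H} (hN : N.Normal) (E : Finset (V × V))
    (hE : ∀ u v, T.Adj u v → ∃ g : K, (g • u, g • v) ∈ E)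
    (h : ∀ e ∈ E, ∀ x : K, (x : H) ∈ N → x • e.1 = e.1 → x • e.2 = e.2 →
      x ∈ ⁅St K e.1 e.2, St K e.1 e.2⁆) :
    ∀ u v, T.Adj u v → ∀ x : K, (x : H) ∈ N → x • u = u → x • v = v →
      x ∈ ⁅St K u v, St K u v⁆ := by
  intro u v huv x hx hu hv
  obtain ⟨g, hg⟩ := hE u v huv
  have h1 := h _ hg (g * x * g⁻¹) (by
      show (g : H) * (x : H) * (g : H)⁻¹ ∈ N
      exact hN.conj_mem _ hx _) (by
      show (g * x * g⁻¹) • g • u = g • u
      rw [mul_smul, mul_smul, inv_smul_smul, hu]) (by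
      show (g * x * g⁻¹) • g • v = g • v
      rw [mul_smul, mul_smul, inv_smul_smul, hv])
  have h2 := St_conj g u v h1
  have h3 : g⁻¹ * (g * x * g⁻¹) * g = x := by group
  rw [h3] at h2
  exact h2

end orbits

/-- Small subgroups of `K` are seen in nilpotent quotients of `H`. -/
lemma exists_NQ_pair (hR : ∀ g : H, g ≠ 1 → ∃ N : Subgroup H, Adm N ∧ g ∉ N) {K : Subgroup H}
    (C : Subgroup K) (hC : ∃ a ∈ C, ∃ b ∈ C, C ≤ Subgroup.closure {a, b} ⊔ ⁅C, C⁆) :
    ∃ N : Subgroup H, NQ N ∧ ∀ x : K, (x : H) ∈ N → x ∈ C → x ∈ ⁅C, C⁆ := by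
  obtain ⟨N, hN, h1⟩ := exists_NQ hR (C.map K.subtype) (by
    obtain ⟨a, ha, b, hb, h⟩ := hC
    refine Or.inr ⟨_, ⟨a, ha, rfl⟩, _, ⟨b, hb, rfl⟩, ?_⟩
    have h3 := Subgroup.map_mono (f := K.subtype) h
    rw [Subgroup.map_sup, Subgroup.map_commutator, MonoidHom.map_closure, Set.image_pair] at h3
    exact h3)
  refine ⟨N, hN, fun x hx hxC => ?_⟩
  have h2 : (x : H) ∈ ⁅C.map K.subtype, C.map K.subtype⁆ := h1 ⟨hx, ⟨x, hxC, rfl⟩⟩
  rw [← Subgroup.map_commutator] at h2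
  obtain ⟨y, hy, hyx⟩ := h2
  have h3 : y = x := Subtype.ext hyx
  rw [← h3]
  exact hy

lemma exists_NQ_nil (hR : ∀ g : H, g ≠ 1 → ∃ N : Subgroup H, Adm N ∧ g ∉ N) {K : Subgroup H}
    (C : Subgroup K) (hC : NilC C) :
    ∃ N : Subgroup H, NQ N ∧ ∀ x : K, (x : H) ∈ N → x ∈ C → x = 1 := by
  obtain ⟨N, hN, h1⟩ := nq_nil hR (K.subtype.comp C.subtype)
    (K.subtype_injective.comp C.subtype_injective) hC
  exact ⟨N, hN, fun x hx hxC => congrArg Subtype.val (h1 ⟨x, hxC⟩ hx)⟩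

section hier

variable {K : Subgroup H} {V : Type} [MulAction K V] {T : SimpleGraph V}

/-- The last step of a hierarchy. -/
theorem hier_small (hR : ∀ g : H, g ≠ 1 → ∃ N : Subgroup H, Adm N ∧ g ∉ N) (hT : T.IsTree)
    (hadj : ∀ (g : K) u v, T.Adj u v → T.Adj (g • u) (g • v))
    (hinv : ∀ (g : K) u v, T.Adj u v → ¬ (g • u = v ∧ g • v = u)) (E : Finset (V × V))
    (hE : ∀ u v, T.Adj u v → ∃ g : K, (g • u, g • v) ∈ E)
    (hEadj : ∀ e ∈ E, T.Adj e.1 e.2)
    (hedge : ∀ u v, T.Adj u v → NilC (St K u v) ∨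
      ∃ a ∈ St K u v, ∃ b ∈ St K u v,
        St K u v ≤ Subgroup.closure {a, b} ⊔ ⁅St K u v, St K u v⁆)
    (hv : ∀ v : V, Subsingleton (HH (MulAction.stabilizer K v))) : ∃ N, NQ N ∧ Dies N K := by
  obtain ⟨N, hN, h⟩ := NQ_unif (fun (e : V × V) N => ∀ x : K, (x : H) ∈ N → x • e.1 = e.1 →
      x • e.2 = e.2 → x ∈ ⁅St K e.1 e.2, St K e.1 e.2⁆)
    (fun i N N' hle h x hx => h x (hle hx)) E (by
      intro e he
      rcases hedge _ _ (hEadj e he) with h0 | h0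
      · obtain ⟨N, hN, h⟩ := exists_NQ_nil hR _ h0
        refine ⟨N, hN, fun x hx h1 h2 => ?_⟩
        rw [h x hx ⟨h1, h2⟩]
        exact Subgroup.one_mem _
      · obtain ⟨N, hN, h⟩ := exists_NQ_pair hR _ h0
        exact ⟨N, hN, fun x hx h1 h2 => h x hx ⟨h1, h2⟩⟩)
  exact ⟨N, hN, step_small hT hadj hinv N (edges_of_reps hN.1 E hE h)
    (fun v => Z2_zero (hv v))⟩

/-- A step of a hierarchy. -/
theorem hier_abelian (hR : ∀ g : H, g ≠ 1 → ∃ N : Subgroup H, Adm N ∧ g ∉ N) (hT : T.IsTree)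
    (hadj : ∀ (g : K) u v, T.Adj u v → T.Adj (g • u) (g • v))
    (hinv : ∀ (g : K) u v, T.Adj u v → ¬ (g • u = v ∧ g • v = u)) (E : Finset (V × V))
    (hE : ∀ u v, T.Adj u v → ∃ g : K, (g • u, g • v) ∈ E)
    (hEadj : ∀ e ∈ E, T.Adj e.1 e.2)
    (hedge : ∀ u v, T.Adj u v → NilC (St K u v))
    (hv : ∀ v : V, ∃ N, NQ N ∧ Dies N ((MulAction.stabilizer K v).map K.subtype)) :
    ∃ N, NQ N ∧ Dies N K := by
  obtain ⟨N, hN, h⟩ := NQ_unif (fun (e : V × V) N => ∀ x : K, (x : H) ∈ N → x • e.1 = e.1 →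
      x • e.2 = e.2 → x = 1)
    (fun i N N' hle h x hx => h x (hle hx)) E (by
      intro e he
      obtain ⟨N, hN, h⟩ := exists_NQ_nil hR _ (hedge _ _ (hEadj e he))
      exact ⟨N, hN, fun x hx h1 h2 => h x hx ⟨h1, h2⟩⟩)
  obtain ⟨F, hF⟩ := vert_orbits hT E hE
  obtain ⟨N', hN', h'⟩ := NQ_unif
    (fun (v : V) N => Dies N ((MulAction.stabilizer K v).map K.subtype))
    (fun i N N' hle h => h.mono hle) F (fun v _ => hv v)
  refine ⟨N ⊓ N', hN.inf hN', step_abelian hT hadj hinv _ ?_ ?_⟩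
  · intro u v huv x hx hu hv
    obtain ⟨g, hg⟩ := hE u v huv
    have h1 := h _ hg (g * x * g⁻¹) (by
        show (g : H) * (x : H) * (g : H)⁻¹ ∈ N
        exact hN.1.conj_mem _ hx.1 _) (by
        show (g * x * g⁻¹) • g • u = g • u
        rw [mul_smul, mul_smul, inv_smul_smul, hu]) (by
        show (g * x * g⁻¹) • g • v = g • v
        rw [mul_smul, mul_smul, inv_smul_smul, hv])
    have h2 : g⁻¹ * (g * x * g⁻¹) * g = x := by group
    rw [h1, mul_one, inv_mul_cancel] at h2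
    exact h2.symm
  · intro v
    obtain ⟨g, hg⟩ := hF v
    refine (Dies.conj hN'.1 (h' _ hg) ((g : H)⁻¹) ?_ ?_).mono inf_le_right
    · rintro _ ⟨x, hx, rfl⟩
      have hx' : x • v = v := hx
      refine ⟨g * x * g⁻¹, ?_, ?_⟩
      · show (g * x * g⁻¹) • g • v = g • v
        rw [mul_smul, mul_smul, inv_smul_smul, hx']
      · show (g : H) * (x : H) * (g : H)⁻¹ = (g : H)⁻¹⁻¹ * (x : H) * (g : H)⁻¹
        rw [inv_inv]
    · rintro _ ⟨x, hx, rfl⟩
      have hx' : x • g • v = g • v := hx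
      refine ⟨g⁻¹ * x * g, ?_, ?_⟩
      · show (g⁻¹ * x * g) • v = v
        rw [mul_smul, mul_smul, hx', inv_smul_smul]
      · show (g : H)⁻¹ * (x : H) * (g : H) = (g : H)⁻¹ * (x : H) * (g : H)⁻¹⁻¹
        rw [inv_inv]

end hier

theorem hier_top (G H : Type) [Group G] [Group H] [Group.FG H]
    (hiso : ∀ n, Nonempty (G ⧸ (⊤ : Subgroup G).lowerCentralSeries n ≃*
      H ⧸ (⊤ : Subgroup H).lowerCentralSeries n)) (hG : Subsingleton (HH G))
    (h : ∃ N : Subgroup H, NQ N ∧ Dies N ⊤) : Subsingleton (HH H) := by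
  obtain ⟨N, ⟨hN, hnil⟩, hd⟩ := h
  have hz : ∀ z ∈ Z2 H, z = 0 := by
    intro z hz
    obtain ⟨w, hw, rfl⟩ := lifts G H hiso hG N ((nil_iff N).2 hnil) z hz
    let a : N →* N.subgroupOf (⊤ : Subgroup H) :=
      MonoidHom.mk' (fun x => ⟨⟨(x : H), Subgroup.mem_top _⟩, x.2⟩) (by
        intro x y
        rfl)
    exact Kills.comp hd a (⊤ : Subgroup H).subtype _ (fun x => rfl) w hw
  obtain ⟨J, -⟩ := H57.HG.pf_API
  refine ⟨fun a b => ?_⟩
  apply (J H).injective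
  apply Subtype.ext
  rw [hz _ (J H a).2, hz _ (J H b).2]

lemma adm_RTFN (hR : ∀ g : H, g ≠ 1 → ∃ (N : Subgroup H) (_ : N.Normal), g ∉ N ∧
      Group.IsNilpotent (H ⧸ N) ∧ ∀ x : H ⧸ N, ∀ k : ℕ, 0 < k → x ^ k = 1 → x = 1) :
    ∀ g : H, g ≠ 1 → ∃ N : Subgroup H, Adm N ∧ g ∉ N := by
  intro g hg
  obtain ⟨N, hNn, h1, h2, h3⟩ := hR g hg
  exact ⟨N, adm_of N h2 h3, h1⟩

end Pool.Agent.H8.PFT
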